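import Mathlib

/-!
# The Chermak–Delgado measure and its smallest maximiser
-/

set_option autoImplicit false

namespace Pool.Agent.Helper958.PCP

variable {P : Type} [Group P]

theorem card_mul_relIndex' (H K : Subgroup P) (h : H ≤ K) :
    Nat.card H * H.relIndex K = Nat.card K := by
  have h1 := Subgroup.relIndex_mul_relIndex (⊥ : Subgroup P) H K bot_le h
  rwa [Subgroup.relIndex_bot_left, Subgroup.relIndex_bot_left] at h1

variable [Finite P]

theorem card_mul_le (X Y : Subgroup P) :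
    Nat.card X * Nat.card Y ≤ Nat.card (X ⊔ Y : Subgroup P) * Nat.card (X ⊓ Y : Subgroup P) := by
  have h1 := card_mul_relIndex' (X ⊓ Y) X inf_le_left
  rw [Subgroup.inf_relIndex_left] at h1
  have h2 := card_mul_relIndex' Y (X ⊔ Y) le_sup_right
  have h3 : Y.relIndex X ≤ Y.relIndex (X ⊔ Y) :=
    Subgroup.relIndex_le_of_le_right le_sup_left (by
      intro h0
      rw [h0, mul_zero] at h2
      exact Nat.card_pos.ne h2)
  rw [← h1, ← h2]
  calc Nat.card (X ⊓ Y : Subgroup P) * Y.relIndex X * Nat.card Y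
      ≤ Nat.card (X ⊓ Y : Subgroup P) * Y.relIndex (X ⊔ Y) * Nat.card Y := by gcongr
    _ = Nat.card Y * Y.relIndex (X ⊔ Y) * Nat.card (X ⊓ Y : Subgroup P) := by ring

/-- the Chermak–Delgado measure -/
noncomputable def mu (X : Subgroup P) : ℕ :=
  Nat.card X * Nat.card (Subgroup.centralizer (X : Set P))

theorem mu_pos (X : Subgroup P) : 0 < mu X := Nat.mul_pos Nat.card_pos Nat.card_pos

theorem mu_super (X Y : Subgroup P) : mu X * mu Y ≤ mu (X ⊔ Y) * mu (X ⊓ Y) := by
  have h1 := card_mul_le X Y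
  have h2 := card_mul_le (Subgroup.centralizer (X : Set P)) (Subgroup.centralizer (Y : Set P))
  have h3 : Nat.card (Subgroup.centralizer (X : Set P) ⊓ Subgroup.centralizer (Y : Set P) :
      Subgroup P) ≤ Nat.card (Subgroup.centralizer ((X ⊔ Y : Subgroup P) : Set P)) := by
    apply Subgroup.card_le_of_le
    rw [Subgroup.le_centralizer_iff]
    refine sup_le ?_ ?_
    · rw [Subgroup.le_centralizer_iff]; exact inf_le_left
    · rw [Subgroup.le_centralizer_iff]; exact inf_le_right
  have h4 : Nat.card (Subgroup.centralizer (X : Set P) ⊔ Subgroup.centralizer (Y : Set P) :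
      Subgroup P) ≤ Nat.card (Subgroup.centralizer ((X ⊓ Y : Subgroup P) : Set P)) := by
    apply Subgroup.card_le_of_le
    refine sup_le ?_ ?_
    · exact Subgroup.centralizer_le (fun x hx => hx.1)
    · exact Subgroup.centralizer_le (fun x hx => hx.2)
  unfold mu
  calc Nat.card X * Nat.card (Subgroup.centralizer (X : Set P)) *
        (Nat.card Y * Nat.card (Subgroup.centralizer (Y : Set P)))
      = (Nat.card X * Nat.card Y) * (Nat.card (Subgroup.centralizer (X : Set P)) *
        Nat.card (Subgroup.centralizer (Y : Set P))) := by ring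
    _ ≤ (Nat.card (X ⊔ Y : Subgroup P) * Nat.card (X ⊓ Y : Subgroup P)) *
        (Nat.card (Subgroup.centralizer ((X ⊓ Y : Subgroup P) : Set P)) *
        Nat.card (Subgroup.centralizer ((X ⊔ Y : Subgroup P) : Set P))) :=
        Nat.mul_le_mul h1 (h2.trans (Nat.mul_le_mul h4 h3))
    _ = _ := by ring

/-- `M` is the smallest maximiser of the Chermak–Delgado measure `|X| |C(X)|` -/
def IsCD (M : Subgroup P) : Prop :=
  (∀ Y : Subgroup P, mu Y ≤ mu M) ∧ ∀ Y : Subgroup P, mu Y = mu M → M ≤ Y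

theorem exists_isCD : ∃ M : Subgroup P, IsCD M := by
  obtain ⟨X1, hX1⟩ := Finite.exists_max (fun X : Subgroup P => mu X)
  have hne : Nonempty {X : Subgroup P // mu X = mu X1} := ⟨⟨X1, rfl⟩⟩
  obtain ⟨⟨M, hM⟩, hmin⟩ := Finite.exists_min
    (fun X : {X : Subgroup P // mu X = mu X1} => Nat.card X.1)
  have h1 : ∀ Y : Subgroup P, mu Y ≤ mu M := fun Y => hM ▸ hX1 Y
  have h2 : ∀ Y : Subgroup P, mu Y = mu M → Nat.card M ≤ Nat.card Y := fun Y hY =>
    hmin ⟨Y, hY.trans hM⟩
  refine ⟨M, h1, fun Y hY => ?_⟩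
  have h4 := mu_super Y M
  have h5 : mu (Y ⊔ M) * mu (Y ⊓ M) ≤ mu M * mu (Y ⊓ M) := Nat.mul_le_mul_right _ (h1 _)
  have h6 : mu M * mu M ≤ mu M * mu (Y ⊓ M) := by
    rw [hY] at h4
    exact h4.trans h5
  have h7 : mu M ≤ mu (Y ⊓ M) := Nat.le_of_mul_le_mul_left h6 (mu_pos M)
  have h8 : mu (Y ⊓ M) = mu M := le_antisymm (h1 _) h7
  have h9 := h2 _ h8
  have h10 := Subgroup.eq_of_le_of_card_ge (inf_le_right : Y ⊓ M ≤ M) h9
  rw [← h10]
  exact inf_le_left

/-- Properties of the smallest maximiser of the Chermak–Delgado measure. -/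
theorem isCD_props (M : Subgroup P) (hCD : IsCD M) : Subgroup.center P ≤ M ∧
    (∀ x ∈ M, ∀ y ∈ M, x * y = y * x) ∧ ∀ Y : Subgroup P, mu Y ≤ mu (Y ⊓ M) := by
  obtain ⟨h1, hmin⟩ := hCD
  have h3 : ∀ Y : Subgroup P, mu Y ≤ mu (Y ⊓ M) := by
    intro Y
    have h4 := mu_super Y M
    have h5 : mu (Y ⊔ M) * mu (Y ⊓ M) ≤ mu M * mu (Y ⊓ M) := Nat.mul_le_mul_right _ (h1 _)
    have h6 : mu M * mu Y ≤ mu M * mu (Y ⊓ M) := by
      rw [mul_comm (mu M) (mu Y)]
      exact h4.trans h5
    exact Nat.le_of_mul_le_mul_left h6 (mu_pos M)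
  refine ⟨?_, ?_, h3⟩
  · have h5 := h1 (M ⊔ Subgroup.center P)
    have h6 : Subgroup.centralizer (M : Set P) ≤
        Subgroup.centralizer ((M ⊔ Subgroup.center P : Subgroup P) : Set P) := by
      rw [Subgroup.le_centralizer_iff]
      refine sup_le ?_ ?_
      · rw [Subgroup.le_centralizer_iff]
      · exact Subgroup.center_le_centralizer _
    have h7 : Nat.card (M ⊔ Subgroup.center P : Subgroup P) *
        Nat.card (Subgroup.centralizer (M : Set P)) ≤
        Nat.card M * Nat.card (Subgroup.centralizer (M : Set P)) :=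
      (Nat.mul_le_mul_left _ (Subgroup.card_le_of_le h6)).trans h5
    have h8 := Nat.le_of_mul_le_mul_right h7 Nat.card_pos
    have h9 := Subgroup.eq_of_le_of_card_ge (le_sup_left : M ≤ M ⊔ Subgroup.center P) h8
    rw [h9]
    exact le_sup_right
  · have h5 : mu M ≤ mu (Subgroup.centralizer (M : Set P)) := by
      unfold mu
      rw [mul_comm]
      refine Nat.mul_le_mul_left _ (Subgroup.card_le_of_le ?_)
      rw [Subgroup.le_centralizer_iff]
    have h6 := hmin _ (le_antisymm (h1 _) h5)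
    intro x hx y hy
    exact (Subgroup.mem_centralizer_iff.1 (h6 hy)) x hx

end Pool.Agent.Helper958.PCP
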