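import Mathlib

/-!
# Counting lemmas for families of subgroups
-/

set_option autoImplicit false

namespace Pool.Agent.Helper958.PCP

/-- Counting elements outside of a common subgroup. -/
theorem primal_count {X : Type} [Group X] [Finite X] {ι : Type} (a : ℕ) (Z0 M : Subgroup X)
    (hZM : Z0 ≤ M) (S : Finset ι) (B : ι → Subgroup X) (hBM : ∀ i ∈ S, B i ≤ M)
    (hB : ∀ i ∈ S, a * Nat.card Z0 ≤ Nat.card (B i))
    (hBB : ∀ i ∈ S, ∀ j ∈ S, i ≠ j → B i ⊓ B j ≤ Z0) :
    S.card * ((a - 1) * Nat.card Z0) + Nat.card Z0 ≤ Nat.card M := by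
  classical
  have := Fintype.ofFinite X
  let f : Subgroup X → Finset X := fun H => Finset.univ.filter (· ∈ H)
  have hf : ∀ H : Subgroup X, (f H).card = Nat.card H := by
    intro H
    rw [Nat.card_eq_fintype_card, Fintype.card_subtype]
  have hm : ∀ (H : Subgroup X) (x : X), x ∈ f H ↔ x ∈ H := by
    intro H x
    simp [f]
  have h1 : (S.biUnion fun i => f (B i) \ f Z0) ⊆ f M \ f Z0 := by
    intro x hx
    obtain ⟨i, hi, hx⟩ := Finset.mem_biUnion.1 hx
    rw [Finset.mem_sdiff, hm, hm] at hx ⊢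
    exact ⟨hBM i hi hx.1, hx.2⟩
  have h2 : (S.biUnion fun i => f (B i) \ f Z0).card = ∑ i ∈ S, (f (B i) \ f Z0).card := by
    refine Finset.card_biUnion ?_
    intro i hi j hj hij
    refine Finset.disjoint_left.2 ?_
    intro x hx hx'
    rw [Finset.mem_sdiff, hm, hm] at hx hx'
    exact hx.2 (hBB i hi j hj hij ⟨hx.1, hx'.1⟩)
  have h3 : ∀ i ∈ S, (a - 1) * Nat.card Z0 ≤ (f (B i) \ f Z0).card := by
    intro i hi
    have h4 := Finset.le_card_sdiff (f Z0) (f (B i))
    rw [hf, hf] at h4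
    have h5 := hB i hi
    have h6 : (a - 1) * Nat.card Z0 = a * Nat.card Z0 - Nat.card Z0 := by
      rw [Nat.sub_mul, one_mul]
    omega
  have h4 : S.card * ((a - 1) * Nat.card Z0) ≤ ∑ i ∈ S, (f (B i) \ f Z0).card := by
    rw [← smul_eq_mul]
    exact Finset.card_nsmul_le_sum S _ _ h3
  have h5 : (f M \ f Z0).card = Nat.card M - Nat.card Z0 := by
    rw [Finset.card_sdiff_of_subset, hf, hf]
    intro x hx
    rw [hm] at hx ⊢
    exact hZM hx
  have h6 : Nat.card Z0 ≤ Nat.card M := Subgroup.card_le_of_le hZM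
  have h7 := Finset.card_le_card h1
  rw [h2, h5] at h7
  omega

/-- characters of `P` with values in `ℂˣ` trivial on `K` -/
def ann {P : Type} [Group P] (K : Subgroup P) : Subgroup (P →* ℂˣ) where
  carrier := {χ | ∀ x ∈ K, χ x = 1}
  one_mem' := fun _ _ => rfl
  mul_mem' := by
    intro χ ψ h1 h2 x hx
    rw [MonoidHom.mul_apply, h1 x hx, h2 x hx, one_mul]
  inv_mem' := by
    intro χ h x hx
    rw [MonoidHom.inv_apply, h x hx, inv_one]

instance finite_chars {P : Type} [Group P] [Finite P] : Finite (P →* ℂˣ) := by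
  have h1 : Finite (P →* ℂ) := by
    have := Fintype.ofFinite P
    exact (linearIndependent_monoidHom P ℂ).finite_of_isNoetherian
  refine Finite.of_injective (fun χ : P →* ℂˣ => (Units.coeHom ℂ).comp χ) ?_
  intro χ ψ h
  ext x
  exact congrArg (fun f : P →* ℂ => f x) h

theorem card_ann_le {P : Type} [Group P] [Finite P] (N : Subgroup P) [N.Normal] :
    Nat.card (ann N) ≤ N.index := by
  classical
  have hQ := Fintype.ofFinite (P ⧸ N)
  have h1 : Finite ((P ⧸ N) →* ℂ) :=
    (linearIndependent_monoidHom (P ⧸ N) ℂ).finite_of_isNoetherian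
  have h2 := Fintype.ofFinite ((P ⧸ N) →* ℂ)
  have h3 := (linearIndependent_monoidHom (P ⧸ N) ℂ).fintype_card_le_finrank
  rw [Module.finrank_fintype_fun_eq_card] at h3
  have h4 : Nat.card (ann N) ≤ Nat.card ((P ⧸ N) →* ℂ) := by
    refine Nat.card_le_card_of_injective
      (fun χ : ann N => (Units.coeHom ℂ).comp (QuotientGroup.lift N χ.1 χ.2)) ?_
    intro χ ψ h
    apply Subtype.ext
    ext x
    exact congrArg (fun f : (P ⧸ N) →* ℂ => f (QuotientGroup.mk x)) h
  rw [Nat.card_eq_fintype_card (α := (P ⧸ N) →* ℂ)] at h4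
  have h5 : N.index = Fintype.card (P ⧸ N) := Nat.card_eq_fintype_card
  rw [h5]
  exact h4.trans h3

theorem exists_char {P : Type} [Group P] [Finite P] (p : ℕ) [Fact p.Prime] (hP : IsPGroup p P)
    (K : Subgroup P) (hK : K ≠ ⊤) : ∃ χ ∈ ann K, χ ≠ 1 := by
  classical
  obtain ⟨L, hL, hKL⟩ := (eq_top_or_exists_le_coatom K).resolve_left hK
  have hnil : Group.IsNilpotent P := hP.isNilpotent
  have hLn : L.Normal := by
    refine Subgroup.NormalizerCondition.normal_of_coatom L ?_ hL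
    exact Group.normalizerCondition_of_isNilpotent
  have hnt : Nontrivial (P ⧸ L) := QuotientGroup.nontrivial_iff.2 hL.1
  have hsol : Group.IsSolvable (P ⧸ L) := inferInstance
  have hc : commutator (P ⧸ L) < ⊤ := Group.IsSolvable.commutator_lt_top_of_nontrivial _
  obtain ⟨y, hy⟩ : ∃ y : P ⧸ L, y ∉ commutator (P ⧸ L) := by
    by_contra hcon
    push Not at hcon
    exact hc.ne (eq_top_iff.2 fun y _ => hcon y)
  have hfin : Finite (Abelianization (P ⧸ L)) := inferInstance
  have hne : (Abelianization.of y : Abelianization (P ⧸ L)) ≠ 1 := by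
    intro h
    apply hy
    exact (QuotientGroup.eq_one_iff y).1 h
  obtain ⟨φ, hφ⟩ := CommGroup.exists_apply_ne_one_of_hasEnoughRootsOfUnity
    (Abelianization (P ⧸ L)) ℂ hne
  refine ⟨(φ.comp Abelianization.of).comp (QuotientGroup.mk' L), ?_, ?_⟩
  · intro x hx
    have h1 : (QuotientGroup.mk' L) x = 1 := (QuotientGroup.eq_one_iff x).2 (hKL hx)
    rw [MonoidHom.comp_apply, h1, map_one]
  · intro h
    obtain ⟨x, rfl⟩ := QuotientGroup.mk_surjective y
    apply hφ
    exact congrArg (fun f : P →* ℂˣ => f x) h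

theorem card_ann_ge {P : Type} [Group P] [Finite P] (p : ℕ) [Fact p.Prime] (hP : IsPGroup p P)
    (K : Subgroup P) (hK : K ≠ ⊤) : p ≤ Nat.card (ann K) := by
  obtain ⟨χ, hχ, hne⟩ := exists_char p hP K hK
  have hpg : IsPGroup p (ann K) := by
    intro ψ
    obtain ⟨n, hn⟩ := IsPGroup.iff_card.1 hP
    refine ⟨n, ?_⟩
    apply Subtype.ext
    ext x
    have h1 : x ^ (p ^ n) = 1 := by
      rw [← hn]
      exact pow_card_eq_one'
    have h2 : (ψ.1 x) ^ (p ^ n) = 1 := by
      rw [← map_pow, h1, map_one]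
    have h3 : ((ψ ^ (p ^ n) : ann K) : P →* ℂˣ) x = (ψ.1 x) ^ (p ^ n) := rfl
    rw [h3, h2]
    rfl
  obtain ⟨k, hk⟩ := IsPGroup.iff_card.1 hpg
  rw [hk]
  have hk0 : k ≠ 0 := by
    rintro rfl
    rw [pow_zero, Nat.card_eq_one_iff_unique] at hk
    have := hk.1
    apply hne
    exact congrArg Subtype.val (Subsingleton.elim (⟨χ, hχ⟩ : ann K) 1)
  exact Nat.le_self_pow hk0 p

/-- The dual count. -/
theorem dual_count {P : Type} [Group P] [Finite P] (p : ℕ) [Fact p.Prime] (hP : IsPGroup p P)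
    (M0 : Subgroup P) {ι : Type} (S : Finset ι) (K : ι → Subgroup P) (hM : ∀ i ∈ S, M0 ≤ K i)
    (hK : ∀ i ∈ S, K i ≠ ⊤) (hKK : ∀ i ∈ S, ∀ j ∈ S, i ≠ j → K i ⊔ K j = ⊤) :
    S.card * (p - 1) + 1 ≤ (commutator P ⊔ M0).index := by
  have hN : (commutator P ⊔ M0).Normal := Subgroup.Normal.of_commutator_le P le_sup_left
  have h1 := primal_count p (⊥ : Subgroup (P →* ℂˣ)) (ann (commutator P ⊔ M0)) bot_le S
    (fun i => ann (K i)) ?_ ?_ ?_
  · rw [Subgroup.card_bot, mul_one] at h1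
    exact h1.trans (card_ann_le _)
  · intro i hi χ hχ
    have h2 : commutator P ⊔ M0 ≤ χ.ker := by
      refine sup_le (Abelianization.commutator_subset_ker χ) ?_
      intro x hx
      exact hχ x (hM i hi hx)
    exact fun x hx => h2 hx
  · intro i hi
    rw [Subgroup.card_bot, mul_one]
    exact card_ann_ge p hP (K i) (hK i hi)
  · intro i hi j hj hij χ hχ
    rw [Subgroup.mem_bot]
    have h2 : (⊤ : Subgroup P) ≤ χ.ker := by
      rw [← hKK i hi j hj hij]
      exact sup_le (fun x hx => hχ.1 x hx) (fun x hx => hχ.2 x hx)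
    ext x
    exact congrArg Units.val (h2 (Subgroup.mem_top x))

end Pool.Agent.Helper958.PCP
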