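import Mathlib

/-!
# Congruence partitions (PCP) in `P × P` for Heisenberg groups: definitions and upper bound
-/

set_option autoImplicit false

namespace Pool.Agent.Helper958.PCP

/-- A PCP (congruence partition, translation net) of degree `r` in a finite group `G` of square
order: `r` subgroups `U i` with `|U i|^2 = |G|`, any two of which meet trivially. -/
def IsPCP (G : Type) [Group G] (r : ℕ) (U : Fin r → Subgroup G) : Prop :=
  (∀ i, (Nat.card (U i)) ^ 2 = Nat.card G) ∧ ∀ i j, i ≠ j → U i ⊓ U j = ⊥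

/-- `T(G) = t`: the largest degree of a PCP in `G` is `t`. -/
def HasT (G : Type) [Group G] (t : ℕ) : Prop :=
  IsGreatest {r : ℕ | ∃ U : Fin r → Subgroup G, IsPCP G r U} t

/-- The Heisenberg group of dimension `2n+1` over `F`: triples `(a, b, c)` with
`(a, b, c)(a', b', c') = (a + a', b + b', c + c' + a ⬝ b')`. -/
@[ext] structure Heis (n : ℕ) (F : Type) where
  a : Fin n → F
  b : Fin n → F
  c : F

namespace Heis

variable {n : ℕ} {F : Type} [Field F]

instance : Mul (Heis n F) :=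
  ⟨fun x y => ⟨x.a + y.a, x.b + y.b, x.c + y.c + dotProduct x.a y.b⟩⟩

instance : One (Heis n F) := ⟨⟨0, 0, 0⟩⟩

instance : Inv (Heis n F) := ⟨fun x => ⟨-x.a, -x.b, -x.c + dotProduct x.a x.b⟩⟩

@[simp] theorem mul_a (x y : Heis n F) : (x * y).a = x.a + y.a := rfl
@[simp] theorem mul_b (x y : Heis n F) : (x * y).b = x.b + y.b := rfl
@[simp] theorem mul_c (x y : Heis n F) : (x * y).c = x.c + y.c + dotProduct x.a y.b := rfl
@[simp] theorem one_a : (1 : Heis n F).a = 0 := rfl
@[simp] theorem one_b : (1 : Heis n F).b = 0 := rfl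
@[simp] theorem one_c : (1 : Heis n F).c = 0 := rfl
@[simp] theorem inv_a (x : Heis n F) : (x⁻¹).a = -x.a := rfl
@[simp] theorem inv_b (x : Heis n F) : (x⁻¹).b = -x.b := rfl
@[simp] theorem inv_c (x : Heis n F) : (x⁻¹).c = -x.c + dotProduct x.a x.b := rfl

instance : Group (Heis n F) := Group.ofLeftAxioms
  (by
    intro x y z
    ext
    · simp [add_assoc]
    · simp [add_assoc]
    · simp only [mul_c, mul_a, mul_b, add_dotProduct, dotProduct_add]; ring)
  (by
    intro x
    ext <;> simp)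
  (by
    intro x
    ext
    · simp
    · simp
    · simp only [mul_c, inv_a, inv_c, neg_dotProduct, one_c]; ring)

/-- the underlying set -/
def equiv : Heis n F ≃ (Fin n → F) × (Fin n → F) × F where
  toFun x := (x.a, x.b, x.c)
  invFun x := ⟨x.1, x.2.1, x.2.2⟩
  left_inv _ := rfl
  right_inv _ := rfl

instance [Finite F] : Finite (Heis n F) := Finite.of_equiv _ equiv.symm

theorem card : Nat.card (Heis n F) = Nat.card F ^ (2 * n + 1) := by
  rw [Nat.card_congr equiv, Nat.card_prod, Nat.card_prod, Nat.card_pi, Finset.prod_const,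
    Finset.card_univ, Fintype.card_fin]
  ring

/-- the alternating form -/
def om (x y : (Fin n → F) × (Fin n → F)) : F := dotProduct x.1 y.2 - dotProduct y.1 x.2

theorem comm_eq (x y : Heis n F) :
    x * y * x⁻¹ * y⁻¹ = ⟨0, 0, om (x.a, x.b) (y.a, y.b)⟩ := by
  ext
  · simp
  · simp
  · simp only [mul_c, mul_a, inv_a, inv_b, inv_c, om, dotProduct_neg, add_dotProduct,
      neg_dotProduct, dotProduct_add]
    rw [dotProduct_comm]
    ring

end Heis

open Heis Module

section Upper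

variable {n : ℕ} {F : Type} [Field F]

/-- the vector space `V × V` -/
abbrev VV (n : ℕ) (F : Type) := ((Fin n → F) × (Fin n → F)) × ((Fin n → F) × (Fin n → F))

/-- the projection modulo the centre -/
def pr : Heis n F × Heis n F →* Multiplicative (VV n F) where
  toFun g := Multiplicative.ofAdd ((g.1.a, g.1.b), (g.2.a, g.2.b))
  map_one' := rfl
  map_mul' _ _ := rfl

/-- the image of `U` in `V × V` -/
def bar (U : Subgroup (Heis n F × Heis n F)) : AddSubgroup (VV n F) where
  carrier := {m | ∃ g ∈ U, ((g.1.a, g.1.b), (g.2.a, g.2.b)) = m}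
  zero_mem' := ⟨1, one_mem U, rfl⟩
  add_mem' := by
    rintro _ _ ⟨g, hg, rfl⟩ ⟨h, hh, rfl⟩
    exact ⟨g * h, mul_mem hg hh, rfl⟩
  neg_mem' := by
    rintro _ ⟨g, hg, rfl⟩
    exact ⟨g⁻¹, inv_mem hg, rfl⟩

/-- the central part of `U` -/
def cen (U : Subgroup (Heis n F × Heis n F)) : AddSubgroup (F × F) where
  carrier := {m | ((⟨0, 0, m.1⟩ : Heis n F), (⟨0, 0, m.2⟩ : Heis n F)) ∈ U}
  zero_mem' := one_mem U
  add_mem' := by
    intro x y hx hy
    have h := mul_mem
      (show ((⟨0, 0, x.1⟩ : Heis n F), (⟨0, 0, x.2⟩ : Heis n F)) ∈ U from hx)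
      (show ((⟨0, 0, y.1⟩ : Heis n F), (⟨0, 0, y.2⟩ : Heis n F)) ∈ U from hy)
    have h2 : (((⟨0, 0, x.1⟩ : Heis n F), (⟨0, 0, x.2⟩ : Heis n F)) *
        ((⟨0, 0, y.1⟩ : Heis n F), (⟨0, 0, y.2⟩ : Heis n F))) =
        ((⟨0, 0, (x + y).1⟩ : Heis n F), (⟨0, 0, (x + y).2⟩ : Heis n F)) := by
      ext <;> simp
    rwa [h2] at h
  neg_mem' := by
    intro x hx
    have h := inv_mem
      (show ((⟨0, 0, x.1⟩ : Heis n F), (⟨0, 0, x.2⟩ : Heis n F)) ∈ U from hx)
    have h2 : (((⟨0, 0, x.1⟩ : Heis n F), (⟨0, 0, x.2⟩ : Heis n F)))⁻¹ =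
        ((⟨0, 0, (-x).1⟩ : Heis n F), (⟨0, 0, (-x).2⟩ : Heis n F)) := by
      ext <;> simp
    rwa [h2] at h

theorem mem_cen {U : Subgroup (Heis n F × Heis n F)} {m : F × F} :
    m ∈ cen U ↔ ((⟨0, 0, m.1⟩ : Heis n F), (⟨0, 0, m.2⟩ : Heis n F)) ∈ U := Iff.rfl

theorem card_eq (U : Subgroup (Heis n F × Heis n F)) :
    Nat.card U = Nat.card (cen U) * Nat.card (bar U) := by
  set φ : U →* Multiplicative (VV n F) := pr.comp U.subtype with hφ
  have h1 := Subgroup.card_mul_index φ.ker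
  rw [Subgroup.index_ker] at h1
  rw [← h1]
  congr 1
  · refine Nat.card_congr ?_
    refine ⟨fun x => ⟨(x.1.1.1.c, x.1.1.2.c), ?_⟩, fun y => ⟨⟨((⟨0, 0, y.1.1⟩ : Heis n F),
      (⟨0, 0, y.1.2⟩ : Heis n F)), y.2⟩, ?_⟩, ?_, ?_⟩
    · have hx : φ x.1 = 1 := x.2
      have hx2 : ((x.1.1.1.a, x.1.1.1.b), (x.1.1.2.a, x.1.1.2.b)) = (0 : VV n F) := hx
      rw [mem_cen]
      have h3 : ((⟨0, 0, x.1.1.1.c⟩ : Heis n F), (⟨0, 0, x.1.1.2.c⟩ : Heis n F)) = x.1.1 := by
        have e1 : x.1.1.1.a = 0 := congrArg (fun v : VV n F => v.1.1) hx2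
        have e2 : x.1.1.1.b = 0 := congrArg (fun v : VV n F => v.1.2) hx2
        have e3 : x.1.1.2.a = 0 := congrArg (fun v : VV n F => v.2.1) hx2
        have e4 : x.1.1.2.b = 0 := congrArg (fun v : VV n F => v.2.2) hx2
        refine Prod.ext ?_ ?_
        · exact Heis.ext e1.symm e2.symm rfl
        · exact Heis.ext e3.symm e4.symm rfl
      show ((⟨0, 0, x.1.1.1.c⟩ : Heis n F), (⟨0, 0, x.1.1.2.c⟩ : Heis n F)) ∈ U
      rw [h3]
      exact x.1.2
    · rfl
    · intro x
      have hx : φ x.1 = 1 := x.2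
      have hx2 : ((x.1.1.1.a, x.1.1.1.b), (x.1.1.2.a, x.1.1.2.b)) = (0 : VV n F) := hx
      have e1 : x.1.1.1.a = 0 := congrArg (fun v : VV n F => v.1.1) hx2
      have e2 : x.1.1.1.b = 0 := congrArg (fun v : VV n F => v.1.2) hx2
      have e3 : x.1.1.2.a = 0 := congrArg (fun v : VV n F => v.2.1) hx2
      have e4 : x.1.1.2.b = 0 := congrArg (fun v : VV n F => v.2.2) hx2
      refine Subtype.ext (Subtype.ext (Prod.ext ?_ ?_))
      · exact Heis.ext e1.symm e2.symm rfl
      · exact Heis.ext e3.symm e4.symm rfl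
    · intro y
      rfl
  · refine Nat.card_congr ?_
    refine ⟨fun x => ⟨Multiplicative.toAdd x.1, ?_⟩, fun y => ⟨Multiplicative.ofAdd y.1, ?_⟩,
      fun x => rfl, fun y => rfl⟩
    · obtain ⟨u, hu⟩ := x.2
      exact ⟨u.1, u.2, congrArg Multiplicative.toAdd hu⟩
    · obtain ⟨g, hg, hy⟩ := y.2
      exact ⟨⟨g, hg⟩, congrArg Multiplicative.ofAdd hy⟩

section Form

variable (p : ℕ) [Fact p.Prime] [Algebra (ZMod p) F]

theorem om_add_left (x x' y : (Fin n → F) × (Fin n → F)) : om (x + x') y = om x y + om x' y := by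
  simp only [om, Prod.fst_add, Prod.snd_add, add_dotProduct, dotProduct_add]; ring

theorem om_add_right (x y y' : (Fin n → F) × (Fin n → F)) : om x (y + y') = om x y + om x y' := by
  simp only [om, Prod.fst_add, Prod.snd_add, add_dotProduct, dotProduct_add]; ring

theorem om_smul_left (c : ZMod p) (x y : (Fin n → F) × (Fin n → F)) :
    om (c • x) y = c • om x y := by
  simp only [om, Prod.smul_fst, Prod.smul_snd, smul_dotProduct, dotProduct_smul, smul_sub]

theorem om_smul_right (c : ZMod p) (x y : (Fin n → F) × (Fin n → F)) :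
    om x (c • y) = c • om x y := by
  simp only [om, Prod.smul_fst, Prod.smul_snd, smul_dotProduct, dotProduct_smul, smul_sub]

theorem om_surj (x : (Fin n → F) × (Fin n → F)) (hx : x ≠ 0) (c : F) : ∃ y, om x y = c := by
  classical
  by_cases h1 : x.1 = 0
  · have h2 : x.2 ≠ 0 := fun h => hx (Prod.ext h1 h)
    obtain ⟨i, hi⟩ := Function.ne_iff.1 h2
    refine ⟨(Pi.single i (-(c / x.2 i)), 0), ?_⟩
    simp only [om, dotProduct_zero, single_dotProduct]
    have hi' : x.2 i ≠ 0 := hi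
    field_simp
    ring
  · obtain ⟨i, hi⟩ := Function.ne_iff.1 h1
    refine ⟨(0, Pi.single i (c / x.1 i)), ?_⟩
    simp only [om, zero_dotProduct, dotProduct_single]
    have hi' : x.1 i ≠ 0 := hi
    field_simp
    ring

/-- the form on `V × V` given by a functional on `F × F` -/
noncomputable def be (f : (F × F) →ₗ[ZMod p] ZMod p) : LinearMap.BilinForm (ZMod p) (VV n F) :=
  LinearMap.mk₂ (ZMod p) (fun x y => f (om x.1 y.1, om x.2 y.2))
    (by
      intro x x' y
      show f (om (x.1 + x'.1) y.1, om (x.2 + x'.2) y.2) = _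
      rw [om_add_left, om_add_left, ← map_add]; rfl)
    (by
      intro c x y
      show f (om (c • x.1) y.1, om (c • x.2) y.2) = _
      rw [om_smul_left, om_smul_left, ← map_smul]; rfl)
    (by
      intro x y y'
      show f (om x.1 (y.1 + y'.1), om x.2 (y.2 + y'.2)) = _
      rw [om_add_right, om_add_right, ← map_add]; rfl)
    (by
      intro c x y
      show f (om x.1 (c • y.1), om x.2 (c • y.2)) = _
      rw [om_smul_right, om_smul_right, ← map_smul]; rfl)

theorem be_apply (f : (F × F) →ₗ[ZMod p] ZMod p) (x y : VV n F) :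
    be p f x y = f (om x.1 y.1, om x.2 y.2) := rfl

theorem be_ker (f : (F × F) →ₗ[ZMod p] ZMod p) (c d : F) (hc : f (c, 0) ≠ 0) (hd : f (0, d) ≠ 0) :
    LinearMap.ker (be (n := n) p f) = ⊥ := by
  rw [LinearMap.ker_eq_bot']
  intro x hx
  by_contra hne
  by_cases h1 : x.1 = 0
  · have h2 : x.2 ≠ 0 := fun h => hne (Prod.ext h1 h)
    obtain ⟨y, hy⟩ := om_surj x.2 h2 d
    apply hd
    have h3 : be p f x (0, y) = 0 := by rw [hx]; rfl
    rw [be_apply] at h3
    have h4 : om x.1 (0 : (Fin n → F) × (Fin n → F)) = 0 := by simp [om]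
    simp only [h4, hy] at h3
    exact h3
  · obtain ⟨y, hy⟩ := om_surj x.1 h1 c
    apply hc
    have h3 : be p f x (y, 0) = 0 := by rw [hx]; rfl
    rw [be_apply] at h3
    have h4 : om x.2 (0 : (Fin n → F) × (Fin n → F)) = 0 := by simp [om]
    simp only [h4, hy] at h3
    exact h3

variable [Finite F]

include p in
theorem bar_card_le (U : Subgroup (Heis n F × Heis n F)) (h : Nat.card (cen U) < Nat.card F) :
    Nat.card (bar U) ≤ Nat.card F ^ (2 * n) := by
  classical
  -- functionals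
  have key : ∃ f : (F × F) →ₗ[ZMod p] ZMod p, (∀ m ∈ cen U, f m = 0) ∧
      (∃ c, f (c, 0) ≠ 0) ∧ ∃ d, f (0, d) ≠ 0 := by
    set W : Submodule (ZMod p) (F × F) := AddSubgroup.toZModSubmodule p (cen U) with hW
    have hmem : ∀ m, m ∈ W ↔ m ∈ cen U := fun m => Iff.rfl
    have h1 : ∃ c : F, (c, (0 : F)) ∉ W := by
      by_contra hcon
      push Not at hcon
      have : Nat.card F ≤ Nat.card (cen U) :=
        Nat.card_le_card_of_injective (fun c : F => (⟨(c, 0), hcon c⟩ : cen U)) (by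
          intro c c' hcc
          exact congrArg (fun z : cen U => z.1.1) hcc)
      omega
    have h2 : ∃ d : F, ((0 : F), d) ∉ W := by
      by_contra hcon
      push Not at hcon
      have : Nat.card F ≤ Nat.card (cen U) :=
        Nat.card_le_card_of_injective (fun c : F => (⟨(0, c), hcon c⟩ : cen U)) (by
          intro c c' hcc
          exact congrArg (fun z : cen U => z.1.2) hcc)
      omega
    obtain ⟨c, hc⟩ := h1
    obtain ⟨d, hd⟩ := h2
    obtain ⟨f1, hf1, hf1'⟩ := Submodule.exists_le_ker_of_notMem hc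
    obtain ⟨f2, hf2, hf2'⟩ := Submodule.exists_le_ker_of_notMem hd
    have hf1z : ∀ m ∈ cen U, f1 m = 0 := fun m hm => hf1' hm
    have hf2z : ∀ m ∈ cen U, f2 m = 0 := fun m hm => hf2' hm
    by_cases g1 : ∃ d, f1 (0, d) ≠ 0
    · exact ⟨f1, hf1z, ⟨c, hf1⟩, g1⟩
    by_cases g2 : ∃ c, f2 (c, 0) ≠ 0
    · exact ⟨f2, hf2z, g2, ⟨d, hf2⟩⟩
    push Not at g1 g2
    refine ⟨f1 + f2, fun m hm => ?_, ⟨c, ?_⟩, ⟨d, ?_⟩⟩
    · rw [LinearMap.add_apply, hf1z m hm, hf2z m hm, add_zero]
    · rw [LinearMap.add_apply, g2 c, add_zero]; exact hf1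
    · rw [LinearMap.add_apply, g1 d, zero_add]; exact hf2
  obtain ⟨f, hf, ⟨c, hc⟩, ⟨d, hd⟩⟩ := key
  set Ub : Submodule (ZMod p) (VV n F) := AddSubgroup.toZModSubmodule p (bar U) with hUb
  have hle : Ub ≤ (be p f).orthogonal Ub := by
    intro x hx y hy
    obtain ⟨g, hg, rfl⟩ := (show x ∈ bar U from hx)
    obtain ⟨g', hg', rfl⟩ := (show y ∈ bar U from hy)
    show be p f _ _ = 0
    rw [be_apply]
    apply hf
    rw [mem_cen]
    have hcm : g' * g * g'⁻¹ * g⁻¹ ∈ U :=
      mul_mem (mul_mem (mul_mem hg' hg) (inv_mem hg')) (inv_mem hg)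
    have e : g' * g * g'⁻¹ * g⁻¹ = ((⟨0, 0, om (g'.1.a, g'.1.b) (g.1.a, g.1.b)⟩ : Heis n F),
        (⟨0, 0, om (g'.2.a, g'.2.b) (g.2.a, g.2.b)⟩ : Heis n F)) :=
      Prod.ext (comm_eq g'.1 g.1) (comm_eq g'.2 g.2)
    rw [e] at hcm
    exact hcm
  have hfr : 2 * finrank (ZMod p) Ub ≤ finrank (ZMod p) (VV n F) := by
    have h1 := LinearMap.BilinForm.finrank_add_finrank_orthogonal' (B := be (n := n) p f) Ub
    have h2 : LinearMap.ker (be (n := n) p f) = ⊥ := be_ker p f c d hc hd
    have h3 : Ub ⊓ LinearMap.ker (be (n := n) p f) = ⊥ := by rw [h2, inf_bot_eq]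
    rw [h3, finrank_bot, add_zero] at h1
    have h4 := Submodule.finrank_mono hle
    omega
  have hVV : finrank (ZMod p) (VV n F) = 2 * (2 * n * finrank (ZMod p) F) := by
    have hpi : finrank (ZMod p) (Fin n → F) = n * finrank (ZMod p) F := by
      rw [Module.finrank_pi_fintype, Finset.sum_const, Finset.card_univ, Fintype.card_fin,
        smul_eq_mul]
    rw [show finrank (ZMod p) (VV n F) = finrank (ZMod p) (((Fin n → F) × (Fin n → F)) ×
      ((Fin n → F) × (Fin n → F))) from rfl, Module.finrank_prod, Module.finrank_prod, hpi]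
    ring
  have hcard : Nat.card (bar U) = p ^ finrank (ZMod p) Ub := by
    have h1 : Nat.card (bar U) = Nat.card Ub := rfl
    rw [h1, Module.natCard_eq_pow_finrank (K := ZMod p), Nat.card_zmod]
  have hF : Nat.card F = p ^ finrank (ZMod p) F := by
    rw [Module.natCard_eq_pow_finrank (K := ZMod p), Nat.card_zmod]
  rw [hcard, hF, ← pow_mul]
  refine Nat.pow_le_pow_right (Fact.out : p.Prime).pos ?_
  rw [hVV] at hfr
  nlinarith

end Form

theorem cen_large [Finite F] (U : Subgroup (Heis n F × Heis n F))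
    (hU : Nat.card U = Nat.card F ^ (2 * n + 1)) : Nat.card F ≤ Nat.card (cen U) := by
  obtain ⟨p, hp⟩ := CharP.exists F
  haveI : Fact p.Prime := ⟨CharP.char_is_prime F p⟩
  letI : Algebra (ZMod p) F := ZMod.algebra F p
  by_contra hcon
  push Not at hcon
  have h1 := bar_card_le p U hcon
  have h2 := card_eq U
  rw [hU] at h2
  have hF : 0 < Nat.card F := Nat.card_pos
  have h3 : 0 < Nat.card F ^ (2 * n) := by positivity
  have h4 : Nat.card (cen U) * Nat.card (bar U) < Nat.card F * Nat.card F ^ (2 * n) :=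
    lt_of_le_of_lt (Nat.mul_le_mul_left _ h1) (Nat.mul_lt_mul_of_pos_right hcon h3)
  rw [← h2, pow_succ] at h4
  rw [mul_comm] at h4
  exact lt_irrefl _ h4

/-- Upper bound: at most `q + 1` components. -/
theorem upper [Finite F] (r : ℕ) (U : Fin r → Subgroup (Heis n F × Heis n F))
    (h : IsPCP (Heis n F × Heis n F) r U) : r ≤ Nat.card F + 1 := by
  classical
  set q := Nat.card F with hq
  have hq2 : 2 ≤ q := by
    have : 1 < Nat.card F := Finite.one_lt_card
    omega
  have hcard : ∀ i, Nat.card (U i) = q ^ (2 * n + 1) := by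
    intro i
    have h1 := h.1 i
    rw [Nat.card_prod, Heis.card, ← sq] at h1
    exact Nat.pow_left_injective (n := 2) (by norm_num) h1
  have hc : ∀ i, q ≤ Nat.card (cen (U i)) := fun i => cen_large (U i) (hcard i)
  -- the nonzero central elements of the components are disjoint
  have hinj : Function.Injective (fun x : (Σ i : Fin r, {m : cen (U i) // m.1 ≠ 0}) =>
      (⟨x.2.1.1, x.2.2⟩ : {m : F × F // m ≠ 0})) := by
    rintro ⟨i, m, hm⟩ ⟨j, m', hm'⟩ he
    have he' : m.1 = m'.1 := congrArg Subtype.val he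
    by_cases hij : i = j
    · subst hij
      have : m = m' := Subtype.ext he'
      subst this
      rfl
    · exfalso
      have h1 := mem_cen.1 m.2
      have h2 := mem_cen.1 m'.2
      rw [← he'] at h2
      have h3 : ((⟨0, 0, m.1.1⟩ : Heis n F), (⟨0, 0, m.1.2⟩ : Heis n F)) ∈ U i ⊓ U j := ⟨h1, h2⟩
      rw [h.2 i j hij, Subgroup.mem_bot] at h3
      apply hm
      have h4 := congrArg (fun z : Heis n F × Heis n F => (z.1.c, z.2.c)) h3
      exact h4
  have hle := Nat.card_le_card_of_injective _ hinj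
  have hR : Nat.card {m : F × F // m ≠ 0} = q ^ 2 - 1 := by
    have := Fintype.ofFinite F
    rw [Nat.card_eq_fintype_card, Fintype.card_subtype_compl, Fintype.card_subtype_eq,
      Fintype.card_prod, hq, Nat.card_eq_fintype_card, sq]
  have hL : r * (q - 1) ≤ Nat.card (Σ i : Fin r, {m : cen (U i) // m.1 ≠ 0}) := by
    rw [Nat.card_sigma]
    have h1 : ∀ i : Fin r, q - 1 ≤ Nat.card {m : cen (U i) // m.1 ≠ 0} := by
      intro i
      have h2 : Nat.card {m : cen (U i) // m.1 ≠ 0} = Nat.card (cen (U i)) - 1 := by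
        have := Fintype.ofFinite (cen (U i))
        have h3 : Nat.card {m : cen (U i) // m.1 ≠ 0} = Nat.card {m : cen (U i) // m ≠ 0} := by
          refine Nat.card_congr (Equiv.subtypeEquivRight fun m => ?_)
          exact not_congr ZeroMemClass.coe_eq_zero
        rw [h3, Nat.card_eq_fintype_card, Fintype.card_subtype_compl, Fintype.card_subtype_eq,
          Nat.card_eq_fintype_card]
      rw [h2]
      have := hc i
      omega
    calc r * (q - 1) = ∑ _i : Fin r, (q - 1) := by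
          rw [Finset.sum_const, Finset.card_univ, Fintype.card_fin, smul_eq_mul]
      _ ≤ _ := Finset.sum_le_sum fun i _ => h1 i
  rw [hR] at hle
  have h5 : r * (q - 1) ≤ (q + 1) * (q - 1) := by
    have h6 : q ^ 2 - 1 = (q + 1) * (q - 1) := by
      obtain ⟨t, ht⟩ : ∃ t, q = t + 2 := ⟨q - 2, by omega⟩
      rw [ht]
      have e1 : t + 2 - 1 = t + 1 := by omega
      rw [e1]
      have e2 : (t + 2) ^ 2 = (t + 2 + 1) * (t + 1) + 1 := by ring
      rw [e2]
      omega
    rw [← h6]
    exact hL.trans hle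
  exact Nat.le_of_mul_le_mul_right h5 (by omega)

end Upper

end Pool.Agent.Helper958.PCP
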