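import Mathlib
import Pool.Agent.Helper958.PCP.HeisUp
import Pool.Agent.Helper958.PCP.Count
import Pool.Agent.Helper958.PCP.CD

/-!
# A general upper bound for `T(P × P)`, `P` a non-abelian `p`-group
-/

set_option autoImplicit false

namespace Pool.Agent.Helper958.PCP

open Subgroup

variable {P : Type} [Group P]

/-- the centre of `P × P` -/
abbrev ZG (P : Type) [Group P] : Subgroup (P × P) := (center P).prod (center P)

/-- `{x | (x, 1) ∈ U}` -/
def AA (U : Subgroup (P × P)) : Subgroup P := U.comap (MonoidHom.inl P P)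

/-- `{x | (x, 1) ∈ U Z(G)}` -/
def AS (U : Subgroup (P × P)) : Subgroup P := AA (U ⊔ ZG P)

theorem mem_AA {U : Subgroup (P × P)} {x : P} : x ∈ AA U ↔ (x, (1 : P)) ∈ U := Iff.rfl

/-- exchange the coordinates -/
def sw (U : Subgroup (P × P)) : Subgroup (P × P) :=
  U.map (MulEquiv.prodComm : P × P ≃* P × P).toMonoidHom

theorem mem_sw {U : Subgroup (P × P)} {x y : P} : (x, y) ∈ sw U ↔ (y, x) ∈ U := by
  constructor
  · rintro ⟨⟨a, b⟩, h, e⟩
    have e1 : b = x := congrArg Prod.fst e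
    have e2 : a = y := congrArg Prod.snd e
    rw [← e1, ← e2]
    exact h
  · intro h
    exact ⟨(y, x), h, rfl⟩

theorem sw_sup (U : Subgroup (P × P)) : sw (U ⊔ ZG P) = sw U ⊔ ZG P := by
  have h1 : sw (ZG P) = ZG P := by
    ext ⟨x, y⟩
    rw [mem_sw, Subgroup.mem_prod, Subgroup.mem_prod]
    exact and_comm
  unfold sw at h1 ⊢
  rw [Subgroup.map_sup, h1]

theorem card_ZG : Nat.card (ZG P) = Nat.card (center P) * Nat.card (center P) := by
  rw [← Nat.card_prod]
  exact Nat.card_congr ((center P).prodEquiv (center P)).toEquiv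

theorem sup_elim {U : Subgroup (P × P)} {g : P × P} (hg : g ∈ U ⊔ ZG P) :
    ∃ u ∈ U, ∃ c : P × P, c.1 ∈ center P ∧ c.2 ∈ center P ∧ u * c = g := by
  obtain ⟨u, hu, c, hc, e⟩ := Subgroup.mem_sup_of_normal_right.1 hg
  exact ⟨u, hu, c, (Subgroup.mem_prod.1 hc).1, (Subgroup.mem_prod.1 hc).2, e⟩

/-- `A*` commutes with the projection of `U`, if `A ∩ P' = 1`. -/
theorem comm_aux (U : Subgroup (P × P)) (hA : AA U ⊓ commutator P = ⊥) (x : P) (hx : x ∈ AS U)
    (y : P) (hy : y ∈ U.map (MonoidHom.fst P P)) : x * y = y * x := by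
  obtain ⟨⟨u1, u2⟩, hu, ⟨c1, c2⟩, hc1, hc2, e⟩ := sup_elim (mem_AA.1 hx)
  obtain ⟨⟨y1, y2⟩, hv, rfl⟩ := hy
  have e1 : u1 * c1 = x := congrArg Prod.fst e
  have e2 : u2 * c2 = 1 := congrArg Prod.snd e
  have hu2 : u2 ∈ center P := by
    rw [eq_inv_of_mul_eq_one_left e2]
    exact inv_mem hc2
  have hw : ((u1, u2) : P × P) * (y1, y2) * (u1, u2)⁻¹ * (y1, y2)⁻¹ ∈ U :=
    mul_mem (mul_mem (mul_mem hu hv) (inv_mem hu)) (inv_mem hv)
  have e3 : ((u1, u2) : P × P) * (y1, y2) * (u1, u2)⁻¹ * (y1, y2)⁻¹ =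
      (u1 * y1 * u1⁻¹ * y1⁻¹, 1) := by
    refine Prod.ext rfl ?_
    show u2 * y2 * u2⁻¹ * y2⁻¹ = 1
    have h1 : u2 * y2 = y2 * u2 := (mem_center_iff.1 hu2 y2).symm
    rw [h1, mul_inv_cancel_right, mul_inv_cancel]
  rw [e3] at hw
  have h2 : u1 * y1 * u1⁻¹ * y1⁻¹ ∈ AA U ⊓ commutator P := by
    refine ⟨hw, ?_⟩
    exact Subgroup.commutator_mem_commutator (mem_top u1) (mem_top y1)
  rw [hA, mem_bot] at h2
  have h3 : u1 * y1 = y1 * u1 := by
    have h4 := mul_inv_eq_one.1 h2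
    exact mul_inv_eq_iff_eq_mul.1 h4
  have h4 : c1 * y1 = y1 * c1 := (mem_center_iff.1 hc1 y1).symm
  show x * y1 = y1 * x
  rw [← e1, mul_assoc, h4, ← mul_assoc, h3, mul_assoc]

variable [Finite P]

theorem card_split (H : Subgroup (P × P)) :
    Nat.card H = Nat.card (AA H) * Nat.card (H.map (MonoidHom.snd P P)) := by
  have h1 := card_mul_relIndex' ((MonoidHom.snd P P).ker ⊓ H) H inf_le_right
  rw [Subgroup.inf_relIndex_right, Subgroup.relIndex_ker] at h1
  rw [← h1]
  congr 1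
  refine Nat.card_congr ⟨fun z => ⟨z.1.1, ?_⟩, fun x => ⟨(x.1, 1), ?_, x.2⟩, ?_, ?_⟩
  · have h2 : z.1.2 = 1 := z.2.1
    have h3 : z.1 ∈ H := z.2.2
    rw [mem_AA]
    rw [← h2]
    exact h3
  · rfl
  · rintro ⟨⟨a, b⟩, h2, h3⟩
    have h4 : b = 1 := h2
    subst h4
    rfl
  · intro x
    rfl

theorem card_split' (H : Subgroup (P × P)) :
    Nat.card H = Nat.card (AA (sw H)) * Nat.card (H.map (MonoidHom.fst P P)) := by
  have h1 : Nat.card H = Nat.card (sw H) := by
    refine (Subgroup.card_map_of_injective ?_).symm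
    exact (MulEquiv.prodComm : P × P ≃* P × P).injective
  rw [h1, card_split]
  congr 2
  unfold sw
  rw [Subgroup.map_map]
  rfl

theorem card_sup (U : Subgroup (P × P)) :
    Nat.card (U ⊔ ZG P : Subgroup (P × P)) * Nat.card (U ⊓ ZG P : Subgroup (P × P)) =
      Nat.card U * Nat.card (ZG P) := by
  have h1 := card_mul_relIndex' (ZG P) (U ⊔ ZG P) le_sup_right
  rw [Subgroup.relIndex_sup_right] at h1
  have h2 := card_mul_relIndex' (U ⊓ ZG P) U inf_le_left
  rw [Subgroup.inf_relIndex_left] at h2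
  rw [← h1, ← h2]
  ring

/-- small components have a large Chermak–Delgado measure on one of the sides -/
theorem small_mu (U : Subgroup (P × P)) (hU : Nat.card U = Nat.card P)
    (hs : Nat.card (U ⊓ ZG P : Subgroup (P × P)) < Nat.card (center P))
    (hA : AA U ⊓ commutator P = ⊥) (hB : AA (sw U) ⊓ commutator P = ⊥) :
    Nat.card P * Nat.card (center P) < mu (AS U) ∨
      Nat.card P * Nat.card (center P) < mu (AS (sw U)) := by
  set s := Nat.card P with hsdef
  set z := Nat.card (center P) with hz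
  set h := Nat.card (U ⊔ ZG P : Subgroup (P × P)) with hh
  have hzpos : 0 < z := Nat.card_pos
  have hhpos : 0 < h := Nat.card_pos
  have h1 : s * z < h := by
    have h2 := card_sup U
    rw [hU, card_ZG, ← hz, ← hh] at h2
    have h3 : s * (z * z) < h * z := by
      rw [← h2]
      exact Nat.mul_lt_mul_of_pos_left hs hhpos
    have h4 : s * z * z < h * z := by
      rw [mul_assoc]
      exact h3
    exact Nat.lt_of_mul_lt_mul_right h4
  -- centralisers
  have hc : ∀ V : Subgroup (P × P), AA V ⊓ commutator P = ⊥ →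
      Nat.card (AS V) * Nat.card ((V ⊔ ZG P).map (MonoidHom.fst P P)) ≤ mu (AS V) := by
    intro V hV
    unfold mu
    refine Nat.mul_le_mul_left _ (Subgroup.card_le_of_le ?_)
    rw [Subgroup.map_sup]
    refine sup_le ?_ ?_
    · intro y hy
      rw [mem_centralizer_iff]
      intro x hx
      exact comm_aux V hV x hx y hy
    · rintro y ⟨⟨c1, c2⟩, hc, rfl⟩
      have h2 : c1 ∈ center P := (Subgroup.mem_prod.1 hc).1
      exact Subgroup.center_le_centralizer _ h2
  have hA1 := hc U hA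
  have hB1 := hc (sw U) hB
  have e1 : h = Nat.card (AS (sw U)) * Nat.card ((U ⊔ ZG P).map (MonoidHom.fst P P)) := by
    rw [hh, card_split', sw_sup]
    rfl
  have e2 : h = Nat.card (AS U) * Nat.card ((sw U ⊔ ZG P).map (MonoidHom.fst P P)) := by
    rw [hh, card_split]
    congr 2
    rw [← sw_sup]
    unfold sw
    rw [Subgroup.map_map]
    rfl
  by_contra hcon
  push Not at hcon
  obtain ⟨g1, g2⟩ := hcon
  have h5 : h * h ≤ (s * z) * (s * z) := by
    calc h * h = (Nat.card (AS U) * Nat.card ((U ⊔ ZG P).map (MonoidHom.fst P P))) *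
          (Nat.card (AS (sw U)) * Nat.card ((sw U ⊔ ZG P).map (MonoidHom.fst P P))) := by
          nth_rewrite 1 [e1]
          nth_rewrite 1 [e2]
          ring
      _ ≤ (s * z) * (s * z) := Nat.mul_le_mul (hA1.trans g1) (hB1.trans g2)
  have h6 : (s * z) * (s * z) < h * h := Nat.mul_self_lt_mul_self h1
  omega

end Pool.Agent.Helper958.PCP
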