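import Mathlib
import Pool.Agent.Helper958.PCP.General

/-!
# A general upper bound for `T(P × P)`, `P` a non-abelian `p`-group: the counting
-/

set_option autoImplicit false

namespace Pool.Agent.Helper958.PCP

open Subgroup

variable {P : Type} [Group P] [Finite P]

theorem le_of_two {p n a t : ℕ} (hp : 0 < p) (ha : a ≤ n) (h1 : t ≤ p ^ a)
    (h2 : t ≤ p ^ (n - a)) : t ≤ p ^ (n / 2) := by
  by_cases h : a ≤ n / 2
  · exact h1.trans (Nat.pow_le_pow_right hp h)
  · exact h2.trans (Nat.pow_le_pow_right hp (by omega))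

theorem exists_pow (p n : ℕ) [Fact p.Prime] (hcard : Nat.card P = p ^ n) (H : Subgroup P) :
    ∃ a ≤ n, Nat.card H = p ^ a ∧ H.index = p ^ (n - a) := by
  have hp : p.Prime := Fact.out
  have h1 := H.card_mul_index
  rw [hcard] at h1
  obtain ⟨a, ha, hH⟩ := (Nat.dvd_prime_pow hp).1 (Dvd.intro _ h1)
  refine ⟨a, ha, hH, ?_⟩
  rw [hH] at h1
  have h2 : p ^ n = p ^ a * p ^ (n - a) := by rw [← pow_add]; congr 1; omega
  rw [h2] at h1
  exact Nat.eq_of_mul_eq_mul_left (pow_pos hp.pos a) h1

theorem p_mul_le (p n : ℕ) [Fact p.Prime] (hcard : Nat.card P = p ^ n) (Z0 B : Subgroup P)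
    (h : Z0 ≤ B) (hne : Z0 ≠ B) : p * Nat.card Z0 ≤ Nat.card B := by
  have hp : p.Prime := Fact.out
  obtain ⟨a, ha, hZ, -⟩ := exists_pow p n hcard Z0
  obtain ⟨b, hb, hB, -⟩ := exists_pow p n hcard B
  rw [hZ, hB]
  have h1 : ¬ b ≤ a := by
    intro h2
    apply hne
    refine Subgroup.eq_of_le_of_card_ge h ?_
    rw [hZ, hB]
    exact Nat.pow_le_pow_right hp.pos h2
  rw [← pow_succ']
  exact Nat.pow_le_pow_right hp.pos (by omega)

section family

variable {r : ℕ} {U : Fin r → Subgroup (P × P)}

theorem pcp_card (h : IsPCP (P × P) r U) (i : Fin r) : Nat.card (U i) = Nat.card P := by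
  have h1 := h.1 i
  rw [Nat.card_prod, ← sq] at h1
  exact Nat.pow_left_injective (n := 2) (by norm_num) h1

theorem pcp_sup (h : IsPCP (P × P) r U) (i j : Fin r) (hij : i ≠ j) : U i ⊔ U j = ⊤ := by
  have h1 := card_mul_le (U i) (U j)
  rw [h.2 i j hij, Subgroup.card_bot, mul_one, pcp_card h, pcp_card h, ← Nat.card_prod] at h1
  exact Subgroup.eq_top_of_le_card _ h1

theorem pcp_AA (h : IsPCP (P × P) r U) (i j : Fin r) (hij : i ≠ j) :
    AA (U i) ⊓ AA (U j) = ⊥ := by
  rw [eq_bot_iff]
  rintro x ⟨h1, h2⟩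
  have h3 : ((x, 1) : P × P) ∈ U i ⊓ U j := ⟨h1, h2⟩
  rw [h.2 i j hij, mem_bot] at h3
  exact congrArg Prod.fst h3

theorem pcp_fst (h : IsPCP (P × P) r U) (i j : Fin r) (hij : i ≠ j) :
    (U i).map (MonoidHom.fst P P) ⊔ (U j).map (MonoidHom.fst P P) = ⊤ := by
  rw [← Subgroup.map_sup, pcp_sup h i j hij,
    Subgroup.map_top_of_surjective _ Prod.fst_surjective]

theorem pcp_snd (h : IsPCP (P × P) r U) (i j : Fin r) (hij : i ≠ j) :
    (U i).map (MonoidHom.snd P P) ⊔ (U j).map (MonoidHom.snd P P) = ⊤ := by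
  rw [← Subgroup.map_sup, pcp_sup h i j hij,
    Subgroup.map_top_of_surjective _ Prod.snd_surjective]

theorem pcp_sw (h : IsPCP (P × P) r U) : IsPCP (P × P) r (fun i => sw (U i)) := by
  refine ⟨fun i => ?_, fun i j hij => ?_⟩
  · rw [← h.1 i]
    congr 1
    exact Subgroup.card_map_of_injective (MulEquiv.prodComm : P × P ≃* P × P).injective
  · rw [eq_bot_iff]
    rintro ⟨x, y⟩ ⟨h1, h2⟩
    have h3 : ((y, x) : P × P) ∈ U i ⊓ U j := ⟨mem_sw.1 h1, mem_sw.1 h2⟩
    rw [h.2 i j hij, mem_bot] at h3
    exact Prod.ext (congrArg Prod.snd h3) (congrArg Prod.fst h3)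

open scoped Classical in
/-- components with `A ∩ P' ≠ 1` -/
theorem count_b (p n : ℕ) [Fact p.Prime] (hcard : Nat.card P = p ^ n)
    (h : IsPCP (P × P) r U) :
    (Finset.univ.filter fun i => AA (U i) ⊓ commutator P ≠ ⊥).card * (p - 1) + 1 ≤
      min (Nat.card (commutator P)) (commutator P).index := by
  have hp : p.Prime := Fact.out
  have hPG : IsPGroup p P := IsPGroup.of_card hcard
  refine le_min ?_ ?_
  · have h1 := primal_count p (⊥ : Subgroup P) (commutator P) bot_le
      (Finset.univ.filter fun i => AA (U i) ⊓ commutator P ≠ ⊥)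
      (fun i => AA (U i) ⊓ commutator P) (fun i _ => inf_le_right) ?_ ?_
    · rw [Subgroup.card_bot, mul_one] at h1
      exact h1
    · intro i hi
      exact p_mul_le p n hcard _ _ bot_le (Finset.mem_filter.1 hi).2.symm
    · intro i _ j _ hij
      rw [← pcp_AA h i j hij]
      exact inf_le_inf inf_le_left inf_le_left
  · have h1 := dual_count p hPG (⊥ : Subgroup P)
      (Finset.univ.filter fun i => AA (U i) ⊓ commutator P ≠ ⊥)
      (fun i => (U i).map (MonoidHom.snd P P)) (fun i _ => bot_le) ?_
      (fun i _ j _ hij => pcp_snd h i j hij)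
    · rw [sup_bot_eq] at h1
      exact h1
    · intro i hi htop
      apply (Finset.mem_filter.1 hi).2
      have h2 := card_split (U i)
      rw [htop, pcp_card h, Subgroup.card_top] at h2
      have h3 : Nat.card (AA (U i)) = 1 := by
        have h4 : 1 * Nat.card P = Nat.card (AA (U i)) * Nat.card P := by
          rw [one_mul]
          exact h2
        exact (Nat.eq_of_mul_eq_mul_right Nat.card_pos h4).symm
      rw [Subgroup.card_eq_one.1 h3, bot_inf_eq]

open scoped Classical in
/-- components with `A ∩ P' = 1` and large Chermak–Delgado measure -/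
theorem count_c (p n : ℕ) [Fact p.Prime] (hcard : Nat.card P = p ^ n)
    (h : IsPCP (P × P) r U) (M : Subgroup P) (hCD : IsCD M) :
    (Finset.univ.filter fun i => AA (U i) ⊓ commutator P = ⊥ ∧
      Nat.card P * Nat.card (center P) < mu (AS (U i))).card * (p - 1) + 1 ≤
      min ((center P).relIndex M) M.index := by
  have hp : p.Prime := Fact.out
  have hPG : IsPGroup p P := IsPGroup.of_card hcard
  obtain ⟨hZM, hMab, hM⟩ := isCD_props M hCD
  have hZAS : ∀ i, center P ≤ AS (U i) := by
    intro i x hx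
    show ((x, 1) : P × P) ∈ U i ⊔ ZG P
    exact (le_sup_right : ZG P ≤ U i ⊔ ZG P) (Subgroup.mem_prod.2 ⟨hx, one_mem _⟩)
  have hmuZ : mu (center P) = Nat.card (center P) * Nat.card P := by
    unfold mu
    congr 1
    have h1 : centralizer ((center P : Subgroup P) : Set P) = ⊤ := by
      rw [eq_top_iff]
      intro x _
      rw [mem_centralizer_iff]
      intro c hc
      exact (mem_center_iff.1 hc x).symm
    rw [h1, Subgroup.card_top]
  have hne : ∀ i, Nat.card P * Nat.card (center P) < mu (AS (U i)) →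
      center P ≠ AS (U i) ⊓ M := by
    intro i hi heq
    have h1 := hM (AS (U i))
    rw [← heq, hmuZ, mul_comm] at h1
    omega
  refine le_min ?_ ?_
  · have h1 := primal_count p (center P) M hZM
      (Finset.univ.filter fun i => AA (U i) ⊓ commutator P = ⊥ ∧
        Nat.card P * Nat.card (center P) < mu (AS (U i)))
      (fun i => AS (U i) ⊓ M) (fun i _ => inf_le_right) ?_ ?_
    · have h2 := card_mul_relIndex' (center P) M hZM
      rw [← h2] at h1
      refine Nat.le_of_mul_le_mul_left ?_ (Nat.card_pos (α := center P))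
      refine le_trans (le_of_eq ?_) h1
      ring
    · intro i hi
      exact p_mul_le p n hcard _ _ (le_inf (hZAS i) hZM) (hne i (Finset.mem_filter.1 hi).2.2)
    · intro i hi j hj hij x hx
      have h2 := (Finset.mem_filter.1 hi).2.1
      have h3 := (Finset.mem_filter.1 hj).2.1
      have h4 : (⊤ : Subgroup P) ≤ centralizer {x} := by
        rw [← pcp_fst h i j hij]
        refine sup_le ?_ ?_
        · intro y hy
          rw [mem_centralizer_singleton_iff]
          exact (comm_aux (U i) h2 x hx.1.1 y hy).symm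
        · intro y hy
          rw [mem_centralizer_singleton_iff]
          exact (comm_aux (U j) h3 x hx.2.1 y hy).symm
      rw [mem_center_iff]
      intro y
      exact mem_centralizer_singleton_iff.1 (h4 (mem_top y))
  · have h1 := dual_count p hPG M
      (Finset.univ.filter fun i => AA (U i) ⊓ commutator P = ⊥ ∧
        Nat.card P * Nat.card (center P) < mu (AS (U i)))
      (fun i => (U i).map (MonoidHom.fst P P) ⊔ M) (fun i _ => le_sup_right) ?_ ?_
    · refine h1.trans ?_
      exact Subgroup.index_antitone le_sup_right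
    · intro i hi htop
      obtain ⟨h2, h3⟩ := (Finset.mem_filter.1 hi).2
      apply hne i h3
      refine le_antisymm (le_inf (hZAS i) hZM) ?_
      intro x hx
      have h4 : (⊤ : Subgroup P) ≤ centralizer {x} := by
        rw [← htop]
        refine sup_le ?_ ?_
        · intro y hy
          rw [mem_centralizer_singleton_iff]
          exact (comm_aux (U i) h2 x hx.1 y hy).symm
        · intro y hy
          rw [mem_centralizer_singleton_iff]
          exact hMab y hy x hx.2
      rw [mem_center_iff]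
      intro y
      exact mem_centralizer_singleton_iff.1 (h4 (mem_top y))
    · intro i _ j _ hij
      rw [eq_top_iff, ← pcp_fst h i j hij]
      exact sup_le_sup le_sup_left le_sup_left

open scoped Classical in
/-- components that meet the centre in at least `|Z(P)|` elements -/
theorem count_ns (p n : ℕ) [Fact p.Prime] (hcard : Nat.card P = p ^ n)
    (hna : ∃ x y : P, x * y ≠ y * x) (h : IsPCP (P × P) r U) :
    (Finset.univ.filter fun i => Nat.card (center P) ≤
      Nat.card (U i ⊓ ZG P : Subgroup (P × P))).card ≤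
      min (Nat.card (center P)) (center P).index + 1 := by
  have hp : p.Prime := Fact.out
  have hPG : IsPGroup p P := IsPGroup.of_card hcard
  set S := Finset.univ.filter fun i => Nat.card (center P) ≤
      Nat.card (U i ⊓ ZG P : Subgroup (P × P)) with hS
  by_cases h1 : S.card ≤ 1
  · omega
  push Not at h1
  set z := Nat.card (center P) with hz
  set k := (center P).index with hk
  have hs : Nat.card P = z * k := ((center P).card_mul_index).symm
  have hnt : Nontrivial P := by
    obtain ⟨x, y, hxy⟩ := hna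
    exact ⟨x * y, y * x, hxy⟩
  have hz2 : 2 ≤ z := by
    have h2 : Nontrivial (center P) := hPG.center_nontrivial
    have h3 : 1 < z := Finite.one_lt_card
    omega
  have hk2 : 2 ≤ k := by
    have h2 : k ≠ 1 := by
      intro h2
      obtain ⟨x, y, hxy⟩ := hna
      have h3 : center P = ⊤ := Subgroup.index_eq_one.1 h2
      apply hxy
      have h4 : y ∈ center P := by rw [h3]; exact mem_top y
      exact mem_center_iff.1 h4 x
    have h3 : k ≠ 0 := by
      intro h3
      rw [h3, mul_zero] at hs
      exact Nat.card_pos.ne' hs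
    omega
  -- all intersections have order exactly `z`
  have hex : ∀ i ∈ S, Nat.card (U i ⊓ ZG P : Subgroup (P × P)) = z := by
    intro i hi
    obtain ⟨j, hj, hij⟩ := Finset.exists_mem_ne h1 i
    have h2 := card_mul_le (U i ⊓ ZG P) (U j ⊓ ZG P)
    have h3 : (U i ⊓ ZG P) ⊓ (U j ⊓ ZG P) = ⊥ := by
      rw [eq_bot_iff, ← h.2 i j hij.symm]
      exact inf_le_inf inf_le_left inf_le_left
    have h4 : Nat.card ((U i ⊓ ZG P) ⊔ (U j ⊓ ZG P) : Subgroup (P × P)) ≤ z * z := by
      rw [hz, ← card_ZG]
      exact Subgroup.card_le_of_le (sup_le inf_le_right inf_le_right)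
    rw [h3, Subgroup.card_bot, mul_one] at h2
    have h5 : z ≤ Nat.card (U j ⊓ ZG P : Subgroup (P × P)) := (Finset.mem_filter.1 hj).2
    have h6 : z ≤ Nat.card (U i ⊓ ZG P : Subgroup (P × P)) := (Finset.mem_filter.1 hi).2
    refine le_antisymm ?_ h6
    have h7 : Nat.card (U i ⊓ ZG P : Subgroup (P × P)) * z ≤ z * z :=
      (Nat.mul_le_mul_left _ h5).trans (h2.trans h4)
    exact Nat.le_of_mul_le_mul_right h7 (by omega)
  have hA : S.card * (z - 1) + 1 ≤ z * z := by
    have h2 := primal_count z (⊥ : Subgroup (P × P)) (ZG P) bot_le S (fun i => U i ⊓ ZG P)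
      (fun i _ => inf_le_right) ?_ ?_
    · rw [Subgroup.card_bot, mul_one, card_ZG] at h2
      exact h2
    · intro i hi
      rw [Subgroup.card_bot, mul_one, hex i hi]
    · intro i _ j _ hij
      rw [← h.2 i j hij]
      exact inf_le_inf inf_le_left inf_le_left
  have hcs : ∀ i ∈ S, Nat.card (U i ⊔ ZG P : Subgroup (P × P)) = k * (z * z) := by
    intro i hi
    have h2 := card_sup (U i)
    rw [hex i hi, pcp_card h, card_ZG, hs] at h2
    have h3 : Nat.card (U i ⊔ ZG P : Subgroup (P × P)) * z = k * (z * z) * z := by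
      rw [h2]
      ring
    exact Nat.eq_of_mul_eq_mul_right (by omega) h3
  have hB : S.card * (k - 1) + 1 ≤ k * k := by
    have h2 := primal_count k (ZG P) (⊤ : Subgroup (P × P)) le_top S (fun i => U i ⊔ ZG P)
      (fun i _ => le_top) ?_ ?_
    · rw [Subgroup.card_top, Nat.card_prod, card_ZG, hs] at h2
      have h3 : (S.card * (k - 1) + 1) * (z * z) ≤ (k * k) * (z * z) := by
        calc (S.card * (k - 1) + 1) * (z * z)
            = S.card * ((k - 1) * (z * z)) + z * z := by ring
          _ ≤ z * k * (z * k) := h2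
          _ = (k * k) * (z * z) := by ring
      exact Nat.le_of_mul_le_mul_right h3 (by positivity)
    · intro i hi
      rw [hcs i hi, card_ZG]
    · intro i hi j hj hij x hx
      obtain ⟨hx1, hx2⟩ := hx
      obtain ⟨u, hu, c, hc1, hc2, e⟩ := sup_elim hx1
      -- `(U j Z) ∩ U i = U i ∩ Z`
      have h3 := card_mul_le ((U j ⊔ ZG P) ⊓ U i) (U j)
      have h4 : ((U j ⊔ ZG P) ⊓ U i) ⊓ U j = ⊥ := by
        rw [eq_bot_iff, ← h.2 i j hij]
        exact inf_le_inf inf_le_right le_rfl
      have h5 : Nat.card (((U j ⊔ ZG P) ⊓ U i) ⊔ U j : Subgroup (P × P)) ≤ k * (z * z) := by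
        rw [← hcs j hj]
        exact Subgroup.card_le_of_le (sup_le inf_le_left le_sup_left)
      rw [h4, Subgroup.card_bot, mul_one, pcp_card h, hs] at h3
      have h6 : Nat.card ((U j ⊔ ZG P) ⊓ U i : Subgroup (P × P)) ≤ z := by
        have h7 : Nat.card ((U j ⊔ ZG P) ⊓ U i : Subgroup (P × P)) * (z * k) ≤ z * (z * k) := by
          refine (h3.trans h5).trans (le_of_eq ?_)
          ring
        exact Nat.le_of_mul_le_mul_right h7 (by positivity)
      have h7 : U i ⊓ ZG P = (U j ⊔ ZG P) ⊓ U i := by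
        refine Subgroup.eq_of_le_of_card_ge ?_ ?_
        · exact le_inf (inf_le_right.trans le_sup_right) inf_le_left
        · rw [hex i hi]
          exact h6
      have hcZ : c ∈ ZG P := Subgroup.mem_prod.2 ⟨hc1, hc2⟩
      have h8 : u ∈ (U j ⊔ ZG P) ⊓ U i := by
        refine ⟨?_, hu⟩
        have h9 : u = x * c⁻¹ := by rw [← e, mul_inv_cancel_right]
        rw [h9]
        have h10 : c ∈ U j ⊔ ZG P := (le_sup_right : ZG P ≤ U j ⊔ ZG P) hcZ
        exact (U j ⊔ ZG P).mul_mem hx2 ((U j ⊔ ZG P).inv_mem h10)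
      rw [← h7] at h8
      rw [← e]
      exact mul_mem h8.2 hcZ
  have hA2 : S.card ≤ z + 1 := by
    obtain ⟨t, ht⟩ : ∃ t, z = t + 2 := ⟨z - 2, by omega⟩
    rw [ht] at hA ⊢
    have e1 : t + 2 - 1 = t + 1 := by omega
    rw [e1] at hA
    by_contra hcon
    push Not at hcon
    have h2 : (t + 2 + 1 + 1) * (t + 1) ≤ S.card * (t + 1) := Nat.mul_le_mul_right _ hcon
    nlinarith
  have hB2 : S.card ≤ k + 1 := by
    obtain ⟨t, ht⟩ : ∃ t, k = t + 2 := ⟨k - 2, by omega⟩
    rw [ht] at hB ⊢
    have e1 : t + 2 - 1 = t + 1 := by omega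
    rw [e1] at hB
    by_contra hcon
    push Not at hcon
    have h2 : (t + 2 + 1 + 1) * (t + 1) ≤ S.card * (t + 1) := Nat.mul_le_mul_right _ hcon
    nlinarith
  rw [min_add]
  exact le_min hA2 hB2

/-- The structural upper bound. -/
theorem structural_upper (p n : ℕ) [Fact p.Prime] (hcard : Nat.card P = p ^ n)
    (hna : ∃ x y : P, x * y ≠ y * x) (M : Subgroup P) (hCD : IsCD M) (h : IsPCP (P × P) r U) :
    r ≤ min (Nat.card (center P)) (center P).index + 1 +
      2 * ((min (Nat.card (commutator P)) (commutator P).index - 1) / (p - 1)) +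
      2 * ((min ((center P).relIndex M) M.index - 1) / (p - 1)) := by
  classical
  have hp : p.Prime := Fact.out
  have hp2 := hp.two_le
  set g1 := (min (Nat.card (commutator P)) (commutator P).index - 1) / (p - 1) with hg1
  set g2 := (min ((center P).relIndex M) M.index - 1) / (p - 1) with hg2
  have hle : ∀ t x, t * (p - 1) + 1 ≤ x → t ≤ (x - 1) / (p - 1) := by
    intro t x ht
    rw [Nat.le_div_iff_mul_le (by omega)]
    omega
  set S0 := Finset.univ.filter fun i => Nat.card (center P) ≤
      Nat.card (U i ⊓ ZG P : Subgroup (P × P)) with hS0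
  set S1 := Finset.univ.filter fun i => AA (U i) ⊓ commutator P ≠ ⊥ with hS1
  set S2 := Finset.univ.filter fun i => AA (U i) ⊓ commutator P = ⊥ ∧
      Nat.card P * Nat.card (center P) < mu (AS (U i)) with hS2
  set S3 := Finset.univ.filter fun i => AA (sw (U i)) ⊓ commutator P ≠ ⊥ with hS3
  set S4 := Finset.univ.filter fun i => AA (sw (U i)) ⊓ commutator P = ⊥ ∧
      Nat.card P * Nat.card (center P) < mu (AS (sw (U i))) with hS4
  have c0 : S0.card ≤ min (Nat.card (center P)) (center P).index + 1 := count_ns p n hcard hna h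
  have c1 : S1.card ≤ g1 := hle _ _ (count_b p n hcard h)
  have c2 : S2.card ≤ g2 := hle _ _ (count_c p n hcard h M hCD)
  have c3 : S3.card ≤ g1 := hle _ _ (count_b p n hcard (pcp_sw h))
  have c4 : S4.card ≤ g2 := hle _ _ (count_c p n hcard (pcp_sw h) M hCD)
  have hcover : (Finset.univ : Finset (Fin r)) ⊆ S0 ∪ (S1 ∪ (S2 ∪ (S3 ∪ S4))) := by
    intro i _
    simp only [Finset.mem_union]
    by_cases g0 : Nat.card (center P) ≤ Nat.card (U i ⊓ ZG P : Subgroup (P × P))
    · left
      exact Finset.mem_filter.2 ⟨Finset.mem_univ _, g0⟩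
    right
    by_cases g1 : AA (U i) ⊓ commutator P = ⊥
    · by_cases g3 : AA (sw (U i)) ⊓ commutator P = ⊥
      · rcases small_mu (U i) (pcp_card h i) (not_le.1 g0) g1 g3 with g5 | g5
        · right; left
          exact Finset.mem_filter.2 ⟨Finset.mem_univ _, g1, g5⟩
        · right; right; right
          exact Finset.mem_filter.2 ⟨Finset.mem_univ _, g3, g5⟩
      · right; right; left
        exact Finset.mem_filter.2 ⟨Finset.mem_univ _, g3⟩
    · left
      exact Finset.mem_filter.2 ⟨Finset.mem_univ _, g1⟩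
  have h1 := Finset.card_le_card hcover
  rw [Finset.card_univ, Fintype.card_fin] at h1
  have h2 := Finset.card_union_le S0 (S1 ∪ (S2 ∪ (S3 ∪ S4)))
  have h3 := Finset.card_union_le S1 (S2 ∪ (S3 ∪ S4))
  have h4 := Finset.card_union_le S2 (S3 ∪ S4)
  have h5 := Finset.card_union_le S3 S4
  omega

/-- The general upper bound. -/
theorem general_upper (p n : ℕ) [Fact p.Prime] (hcard : Nat.card P = p ^ n)
    (hna : ∃ x y : P, x * y ≠ y * x) (h : IsPCP (P × P) r U) :
    r ≤ p ^ (n / 2) + 1 + 4 * ∑ i ∈ Finset.range (n / 2), p ^ i := by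
  classical
  have hp : p.Prime := Fact.out
  have hp2 := hp.two_le
  obtain ⟨M, hCD⟩ := exists_isCD (P := P)
  have hmain := structural_upper p n hcard hna M hCD h
  set g := ∑ i ∈ Finset.range (n / 2), p ^ i with hg
  have hgeom : g * (p - 1) + 1 = p ^ (n / 2) := by
    have h1 := geom_sum_mul_add (p - 1) (n / 2)
    have h2 : p - 1 + 1 = p := Nat.sub_add_cancel hp.one_le
    rw [h2] at h1
    exact h1
  have hle : ∀ x, x ≤ p ^ (n / 2) → (x - 1) / (p - 1) ≤ g := by
    intro x hx
    rw [← hgeom] at hx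
    have h1 : x - 1 ≤ g * (p - 1) := by omega
    exact Nat.div_le_of_le_mul (by rw [mul_comm]; exact h1)
  have e0 : min (Nat.card (center P)) (center P).index ≤ p ^ (n / 2) := by
    obtain ⟨a, ha, hC, hI⟩ := exists_pow p n hcard (center P)
    exact le_of_two hp.pos ha (by rw [← hC]; exact min_le_left _ _)
      (by rw [← hI]; exact min_le_right _ _)
  have e1 : min (Nat.card (commutator P)) (commutator P).index ≤ p ^ (n / 2) := by
    obtain ⟨a, ha, hC, hI⟩ := exists_pow p n hcard (commutator P)
    exact le_of_two hp.pos ha (by rw [← hC]; exact min_le_left _ _)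
      (by rw [← hI]; exact min_le_right _ _)
  have e2 : min ((center P).relIndex M) M.index ≤ p ^ (n / 2) := by
    obtain ⟨a, ha, hC, hI⟩ := exists_pow p n hcard M
    have h1 : (center P).relIndex M ≤ Nat.card M :=
      Nat.le_of_dvd Nat.card_pos (Subgroup.relIndex_dvd_card _ _)
    exact le_of_two hp.pos ha (by rw [← hC]; exact (min_le_left _ _).trans h1)
      (by rw [← hI]; exact min_le_right _ _)
  have f1 := hle _ e1
  have f2 := hle _ e2
  omega

end family

end Pool.Agent.Helper958.PCP
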