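import Mathlib
import Pool.Agent.Helper958.PCP.HeisUp

/-!
# Congruence partitions (PCP) in `P × P` for Heisenberg groups: lower bound
-/

set_option autoImplicit false

namespace Pool.Agent.Helper958.PCP

open Heis

section Lower

variable {n : ℕ} {F : Type} [Field F]

/-- data defining an endomorphism of the Heisenberg group -/
structure Dat (F : Type) [Field F] where
  al : F
  be : F
  ga : F
  de : F
  k1 : F
  k2 : F
  h1 : 2 * k1 = al * ga
  h2 : 2 * k2 = be * de

/-- the endomorphism of the Heisenberg group given by a matrix -/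
def sig (D : Dat F) : Heis n F →* Heis n F where
  toFun x := ⟨D.al • x.a + D.be • x.b, D.ga • x.a + D.de • x.b,
    (D.al * D.de - D.be * D.ga) * x.c + (D.k1 * dotProduct x.a x.a + D.k2 * dotProduct x.b x.b +
      D.be * D.ga * dotProduct x.a x.b)⟩
  map_one' := by ext <;> simp
  map_mul' x y := by
    ext i
    · simp only [mul_a, mul_b, Pi.add_apply, Pi.smul_apply, smul_eq_mul]; ring
    · simp only [mul_a, mul_b, Pi.add_apply, Pi.smul_apply, smul_eq_mul]; ring
    · simp only [mul_a, mul_b, mul_c, add_dotProduct, dotProduct_add, smul_dotProduct,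
        dotProduct_smul, smul_eq_mul]
      rw [dotProduct_comm y.a x.a, dotProduct_comm y.b x.b, dotProduct_comm y.a x.b]
      linear_combination (dotProduct x.a y.a) * D.h1 + (dotProduct x.b y.b) * D.h2

theorem solve {al be ga de : F} (h : al * de - be * ga ≠ 0) {a b : Fin n → F}
    (e1 : al • a + be • b = 0) (e2 : ga • a + de • b = 0) : a = 0 ∧ b = 0 := by
  constructor
  · funext i
    have h1 := congrFun e1 i
    have h2 := congrFun e2 i
    simp only [Pi.add_apply, Pi.smul_apply, smul_eq_mul, Pi.zero_apply] at h1 h2 ⊢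
    have h3 : (al * de - be * ga) * a i = 0 := by linear_combination de * h1 - be * h2
    exact (mul_eq_zero.1 h3).resolve_left h
  · funext i
    have h1 := congrFun e1 i
    have h2 := congrFun e2 i
    simp only [Pi.add_apply, Pi.smul_apply, smul_eq_mul, Pi.zero_apply] at h1 h2 ⊢
    have h3 : (al * de - be * ga) * b i = 0 := by linear_combination al * h2 - ga * h1
    exact (mul_eq_zero.1 h3).resolve_left h

theorem sig_inj (D : Dat F) (h : D.al * D.de - D.be * D.ga ≠ 0) (x : Heis n F)
    (hx : sig D x = 1) : x = 1 := by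
  have h1 : D.al • x.a + D.be • x.b = 0 := congrArg Heis.a hx
  have h2 : D.ga • x.a + D.de • x.b = 0 := congrArg Heis.b hx
  have h3 : (D.al * D.de - D.be * D.ga) * x.c + (D.k1 * dotProduct x.a x.a +
    D.k2 * dotProduct x.b x.b + D.be * D.ga * dotProduct x.a x.b) = 0 := congrArg Heis.c hx
  obtain ⟨ha, hb⟩ := solve h h1 h2
  rw [ha, hb] at h3
  simp only [dotProduct_zero, mul_zero, add_zero] at h3
  exact Heis.ext ha hb ((mul_eq_zero.1 h3).resolve_left h)

theorem sig_eq (D E : Dat F)
    (hd : D.al * D.de - D.be * D.ga ≠ E.al * E.de - E.be * E.ga)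
    (h : (D.al - E.al) * (D.de - E.de) - (D.be - E.be) * (D.ga - E.ga) ≠ 0) (x : Heis n F)
    (hx : sig D x = sig E x) : x = 1 := by
  have h1 : D.al • x.a + D.be • x.b = E.al • x.a + E.be • x.b := congrArg Heis.a hx
  have h2 : D.ga • x.a + D.de • x.b = E.ga • x.a + E.de • x.b := congrArg Heis.b hx
  have h3 : (D.al * D.de - D.be * D.ga) * x.c + (D.k1 * dotProduct x.a x.a +
    D.k2 * dotProduct x.b x.b + D.be * D.ga * dotProduct x.a x.b) =
    (E.al * E.de - E.be * E.ga) * x.c + (E.k1 * dotProduct x.a x.a +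
    E.k2 * dotProduct x.b x.b + E.be * E.ga * dotProduct x.a x.b) := congrArg Heis.c hx
  have g1 : (D.al - E.al) • x.a + (D.be - E.be) • x.b = 0 := by
    rw [sub_smul, sub_smul, sub_add_sub_comm, h1, sub_self]
  have g2 : (D.ga - E.ga) • x.a + (D.de - E.de) • x.b = 0 := by
    rw [sub_smul, sub_smul, sub_add_sub_comm, h2, sub_self]
  obtain ⟨ha, hb⟩ := solve h g1 g2
  rw [ha, hb] at h3
  simp only [dotProduct_zero, mul_zero, add_zero] at h3
  refine Heis.ext ha hb ?_
  have h4 : ((D.al * D.de - D.be * D.ga) - (E.al * E.de - E.be * E.ga)) * x.c = 0 := by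
    linear_combination h3
  exact (mul_eq_zero.1 h4).resolve_left (sub_ne_zero.2 hd)

theorem exists_dat [Finite F] : ∃ D : Fˣ → Dat F,
    (∀ t, (D t).al * (D t).de - (D t).be * (D t).ga ≠ 0) ∧
    ∀ t s, t ≠ s → ((D t).al * (D t).de - (D t).be * (D t).ga ≠
        (D s).al * (D s).de - (D s).be * (D s).ga ∧
      ((D t).al - (D s).al) * ((D t).de - (D s).de) -
        ((D t).be - (D s).be) * ((D t).ga - (D s).ga) ≠ 0) := by
  classical
  have := Fintype.ofFinite F
  by_cases h2 : (2 : F) = 0
  · refine ⟨fun t => ⟨t, 0, 0, t, 0, 0, by simp, by simp⟩, fun t => ?_, fun t s hts => ?_⟩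
    · simp
    · have hne : (t : F) - s ≠ 0 := sub_ne_zero.2 fun h => hts (Units.ext h)
      refine ⟨fun h => ?_, ?_⟩
      · simp only [zero_mul, sub_zero] at h
        apply hne
        have h3 : ((t : F) - s) * (t - s) = 0 := by linear_combination h + (s * s - t * s) * h2
        exact mul_self_eq_zero.1 h3
      · simp only [sub_self, zero_mul, sub_zero]
        exact mul_ne_zero hne hne
  · have hchar : ringChar F ≠ 2 := by
      intro h
      apply h2
      have := ringChar.Nat.cast_ringChar (R := F)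
      rw [h] at this
      exact_mod_cast this
    obtain ⟨ε, hε⟩ := FiniteField.exists_nonsquare hchar
    have hε0 : ε ≠ 0 := by
      rintro rfl
      exact hε (IsSquare.zero)
    have hsol : ∀ t : F, ∃ xy : F × F, xy.1 ^ 2 - ε * xy.2 ^ 2 = t := by
      intro t
      have hodd : Fintype.card F % 2 = 1 := FiniteField.odd_card_of_char_ne_two hchar
      have hf : (Polynomial.X ^ 2 - Polynomial.C t : Polynomial F).degree = 2 := by
        exact Polynomial.degree_X_pow_sub_C (by norm_num) t
      have hg : (Polynomial.C (-ε) * Polynomial.X ^ 2 : Polynomial F).degree = 2 :=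
        Polynomial.degree_C_mul_X_pow 2 (neg_ne_zero.2 hε0)
      obtain ⟨x, y, hxy⟩ := FiniteField.exists_root_sum_quadratic hf hg hodd
      refine ⟨(x, y), ?_⟩
      simp only [Polynomial.eval_sub, Polynomial.eval_pow, Polynomial.eval_X, Polynomial.eval_C,
        Polynomial.eval_mul] at hxy
      linear_combination hxy
    choose xy hxy using hsol
    have hanis : ∀ x y : F, x ^ 2 - ε * y ^ 2 = 0 → x = 0 ∧ y = 0 := by
      intro x y h
      by_cases hy : y = 0
      · subst hy
        refine ⟨?_, rfl⟩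
        have h3 : x ^ 2 = 0 := by linear_combination h
        exact pow_eq_zero_iff (two_ne_zero) |>.1 h3
      · exfalso
        apply hε
        refine ⟨x / y, ?_⟩
        field_simp
        linear_combination -h
    refine ⟨fun t => ⟨(xy t).1, ε * (xy t).2, (xy t).2, (xy t).1, (xy t).1 * (xy t).2 / 2,
      ε * (xy t).2 * (xy t).1 / 2, by field_simp, by field_simp⟩, fun t => ?_, fun t s hts => ?_⟩
    · have h3 := hxy t
      have h4 : (xy t).1 * (xy t).1 - ε * (xy t).2 * (xy t).2 = t := by linear_combination h3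
      simp only [h4]
      exact t.ne_zero
    · have ht := hxy t
      have hs := hxy s
      have hne : (t : F) ≠ s := fun h => hts (Units.ext h)
      refine ⟨fun h => ?_, fun h => ?_⟩
      · simp only at h
        apply hne
        linear_combination h - ht + hs
      · simp only at h
        have h5 : ((xy t).1 - (xy s).1) ^ 2 - ε * ((xy t).2 - (xy s).2) ^ 2 = 0 := by
          linear_combination h
        obtain ⟨e1, e2⟩ := hanis _ _ h5
        apply hne
        rw [← ht, ← hs, sub_eq_zero.1 e1, sub_eq_zero.1 e2]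

/-- the components -/
def fam (D : Fˣ → Dat F) : Option (Option Fˣ) → Subgroup (Heis n F × Heis n F)
  | none => Subgroup.prod ⊤ ⊥
  | some none => Subgroup.prod ⊥ ⊤
  | some (some t) => (sig (D t)).graph

theorem fam_card (D : Fˣ → Dat F) (i : Option (Option Fˣ)) :
    Nat.card (fam (n := n) D i) = Nat.card (Heis n F) := by
  rcases i with _ | _ | t
  · refine Nat.card_congr ⟨fun x => x.1.1, fun x => ⟨(x, 1), ?_⟩, ?_, ?_⟩
    · exact Subgroup.mem_prod.2 ⟨Subgroup.mem_top _, Subgroup.mem_bot.2 rfl⟩
    · rintro ⟨⟨x, y⟩, h⟩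
      have h2 : y = 1 := Subgroup.mem_bot.1 (Subgroup.mem_prod.1 h).2
      subst h2
      rfl
    · intro x
      rfl
  · refine Nat.card_congr ⟨fun x => x.1.2, fun x => ⟨(1, x), ?_⟩, ?_, ?_⟩
    · exact Subgroup.mem_prod.2 ⟨Subgroup.mem_bot.2 rfl, Subgroup.mem_top _⟩
    · rintro ⟨⟨x, y⟩, h⟩
      have h2 : x = 1 := Subgroup.mem_bot.1 (Subgroup.mem_prod.1 h).1
      subst h2
      rfl
    · intro x
      rfl
  · refine Nat.card_congr ⟨fun x => x.1.1, fun x => ⟨(x, sig (D t) x), ?_⟩, ?_, ?_⟩
    · exact MonoidHom.mem_graph.2 rfl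
    · rintro ⟨⟨x, y⟩, h⟩
      have h2 : sig (D t) x = y := MonoidHom.mem_graph.1 h
      subst h2
      rfl
    · intro x
      rfl

theorem fam_inf (D : Fˣ → Dat F) (hD : ∀ t, (D t).al * (D t).de - (D t).be * (D t).ga ≠ 0)
    (hD2 : ∀ t s, t ≠ s → ((D t).al * (D t).de - (D t).be * (D t).ga ≠
        (D s).al * (D s).de - (D s).be * (D s).ga ∧
      ((D t).al - (D s).al) * ((D t).de - (D s).de) -
        ((D t).be - (D s).be) * ((D t).ga - (D s).ga) ≠ 0)) (i j : Option (Option Fˣ))
    (hij : i ≠ j) : fam (n := n) D i ⊓ fam (n := n) D j = ⊥ := by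
  rw [Subgroup.eq_bot_iff_forall]
  rintro ⟨x, y⟩ ⟨h1, h2⟩
  have hA : ∀ z : Heis n F × Heis n F, z ∈ fam D none → z.2 = 1 := fun z hz =>
    Subgroup.mem_bot.1 (Subgroup.mem_prod.1 hz).2
  have hB : ∀ z : Heis n F × Heis n F, z ∈ fam D (some none) → z.1 = 1 := fun z hz =>
    Subgroup.mem_bot.1 (Subgroup.mem_prod.1 hz).1
  have hC : ∀ (t : Fˣ) (z : Heis n F × Heis n F), z ∈ fam D (some (some t)) →
      sig (D t) z.1 = z.2 := fun t z hz => MonoidHom.mem_graph.1 hz
  rcases i with _ | _ | t <;> rcases j with _ | _ | s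
  · exact absurd rfl hij
  · exact Prod.ext (hB _ h2) (hA _ h1)
  · have e1 := hA _ h1
    have e2 := hC s _ h2
    rw [e1] at e2
    exact Prod.ext (sig_inj _ (hD s) _ e2) e1
  · exact Prod.ext (hB _ h1) (hA _ h2)
  · exact absurd rfl hij
  · have e1 : x = 1 := hB _ h1
    have e2 : sig (D s) x = y := hC s _ h2
    subst e1
    rw [map_one] at e2
    subst e2
    rfl
  · have e1 := hA _ h2
    have e2 := hC t _ h1
    rw [e1] at e2
    exact Prod.ext (sig_inj _ (hD t) _ e2) e1
  · have e1 : x = 1 := hB _ h2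
    have e2 : sig (D t) x = y := hC t _ h1
    subst e1
    rw [map_one] at e2
    subst e2
    rfl
  · have e1 : sig (D t) x = y := hC t _ h1
    have e2 : sig (D s) x = y := hC s _ h2
    have hts : t ≠ s := by
      rintro rfl
      exact hij rfl
    have hx : x = 1 := sig_eq (D t) (D s) (hD2 t s hts).1 (hD2 t s hts).2 x (e1.trans e2.symm)
    subst hx
    rw [map_one] at e1
    subst e1
    rfl

/-- Lower bound: `q + 1` components. -/
theorem lower [Finite F] : ∃ U : Fin (Nat.card F + 1) → Subgroup (Heis n F × Heis n F),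
    IsPCP (Heis n F × Heis n F) (Nat.card F + 1) U := by
  classical
  obtain ⟨D, hD, hD2⟩ := exists_dat (F := F)
  have := Fintype.ofFinite F
  have hcard : Nat.card (Option (Option Fˣ)) = Nat.card F + 1 := by
    rw [Finite.card_option, Finite.card_option, Nat.card_units]
    have : 1 < Nat.card F := Finite.one_lt_card
    omega
  have e : Fin (Nat.card F + 1) ≃ Option (Option Fˣ) :=
    (Finite.equivFinOfCardEq hcard).symm
  refine ⟨fun i => fam D (e i), fun i => ?_, fun i j hij => ?_⟩
  · rw [fam_card, Nat.card_prod, sq]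
  · exact fam_inf D hD hD2 _ _ fun h => hij (e.injective h)

end Lower

end Pool.Agent.Helper958.PCP
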