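import Mathlib
import Pool.Agent.Helper958.PCP.General2

/-!
# Groups of order `q ^ 2` with large `T(P × P)`
-/

set_option autoImplicit false

namespace Pool.Agent.Helper958.PCP

section generic

variable {P : Type} [Group P] [Finite P] {ι : Type}

/-- the two factors and the graphs of the `σ i` -/
def gfam (σ : ι → P →* P) : Option (Option ι) → Subgroup (P × P)
  | none => Subgroup.prod ⊤ ⊥
  | some none => Subgroup.prod ⊥ ⊤
  | some (some t) => (σ t).graph

theorem gfam_card (σ : ι → P →* P) (i : Option (Option ι)) :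
    Nat.card (gfam σ i) = Nat.card P := by
  rcases i with _ | _ | t
  · refine Nat.card_congr ⟨fun x => x.1.1, fun x => ⟨(x, 1), ?_⟩, ?_, ?_⟩
    · exact Subgroup.mem_prod.2 ⟨Subgroup.mem_top _, Subgroup.mem_bot.2 rfl⟩
    · rintro ⟨⟨x, y⟩, h⟩
      have h2 : y = 1 := Subgroup.mem_bot.1 (Subgroup.mem_prod.1 h).2
      subst h2
      rfl
    · intro x
      rfl
  · refine Nat.card_congr ⟨fun x => x.1.2, fun x => ⟨(1, x), ?_⟩, ?_, ?_⟩
    · exact Subgroup.mem_prod.2 ⟨Subgroup.mem_bot.2 rfl, Subgroup.mem_top _⟩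
    · rintro ⟨⟨x, y⟩, h⟩
      have h2 : x = 1 := Subgroup.mem_bot.1 (Subgroup.mem_prod.1 h).1
      subst h2
      rfl
    · intro x
      rfl
  · refine Nat.card_congr ⟨fun x => x.1.1, fun x => ⟨(x, σ t x), ?_⟩, ?_, ?_⟩
    · exact MonoidHom.mem_graph.2 rfl
    · rintro ⟨⟨x, y⟩, h⟩
      have h2 : σ t x = y := MonoidHom.mem_graph.1 h
      subst h2
      rfl
    · intro x
      rfl

theorem gfam_inf (σ : ι → P →* P) (h1 : ∀ i x, σ i x = 1 → x = 1)
    (h2 : ∀ i j, i ≠ j → ∀ x, σ i x = σ j x → x = 1) (i j : Option (Option ι)) (hij : i ≠ j) :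
    gfam σ i ⊓ gfam σ j = ⊥ := by
  rw [Subgroup.eq_bot_iff_forall]
  rintro ⟨x, y⟩ ⟨g1, g2⟩
  have hA : ∀ z : P × P, z ∈ gfam σ none → z.2 = 1 := fun z hz =>
    Subgroup.mem_bot.1 (Subgroup.mem_prod.1 hz).2
  have hB : ∀ z : P × P, z ∈ gfam σ (some none) → z.1 = 1 := fun z hz =>
    Subgroup.mem_bot.1 (Subgroup.mem_prod.1 hz).1
  have hC : ∀ (t : ι) (z : P × P), z ∈ gfam σ (some (some t)) → σ t z.1 = z.2 :=
    fun t z hz => MonoidHom.mem_graph.1 hz
  rcases i with _ | _ | t <;> rcases j with _ | _ | s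
  · exact absurd rfl hij
  · exact Prod.ext (hB _ g2) (hA _ g1)
  · have e1 := hA _ g1
    have e2 := hC s _ g2
    rw [e1] at e2
    exact Prod.ext (h1 _ _ e2) e1
  · exact Prod.ext (hB _ g1) (hA _ g2)
  · exact absurd rfl hij
  · have e1 : x = 1 := hB _ g1
    have e2 : σ s x = y := hC s _ g2
    subst e1
    rw [map_one] at e2
    subst e2
    rfl
  · have e1 := hA _ g2
    have e2 := hC t _ g1
    rw [e1] at e2
    exact Prod.ext (h1 _ _ e2) e1
  · have e1 : x = 1 := hB _ g2
    have e2 : σ t x = y := hC t _ g1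
    subst e1
    rw [map_one] at e2
    subst e2
    rfl
  · have e1 : σ t x = y := hC t _ g1
    have e2 : σ s x = y := hC s _ g2
    have hts : t ≠ s := by
      rintro rfl
      exact hij rfl
    have hx : x = 1 := h2 t s hts x (e1.trans e2.symm)
    subst hx
    rw [map_one] at e1
    subst e1
    rfl

theorem gfam_pcp [Finite ι] (σ : ι → P →* P) (h1 : ∀ i x, σ i x = 1 → x = 1)
    (h2 : ∀ i j, i ≠ j → ∀ x, σ i x = σ j x → x = 1) (r : ℕ) (hr : r ≤ Nat.card ι + 2) :
    ∃ U : Fin r → Subgroup (P × P), IsPCP (P × P) r U := by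
  classical
  have hcard : Nat.card (Option (Option ι)) = Nat.card ι + 2 := by
    rw [Finite.card_option, Finite.card_option]
  have e : Fin (Nat.card ι + 2) ≃ Option (Option ι) :=
    (Finite.equivFinOfCardEq hcard).symm
  refine ⟨fun i => gfam σ (e (Fin.castLE hr i)), fun i => ?_, fun i j hij => ?_⟩
  · rw [gfam_card, Nat.card_prod, sq]
  · refine gfam_inf σ h1 h2 _ _ fun h => hij ?_
    exact Fin.castLE_injective hr (e.injective h)

end generic

/-- pairs `(a, c)` over `F` with `(a, c)(a', c') = (a + a', c + c' + a a' ^ p)` -/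
@[ext] structure Suz (p : ℕ) (F : Type) where
  a : F
  c : F

namespace Suz

variable {p : ℕ} [Fact p.Prime] {F : Type} [Field F] [CharP F p]

instance : Mul (Suz p F) := ⟨fun x y => ⟨x.a + y.a, x.c + y.c + x.a * y.a ^ p⟩⟩

instance : One (Suz p F) := ⟨⟨0, 0⟩⟩

instance : Inv (Suz p F) := ⟨fun x => ⟨-x.a, -x.c + x.a * x.a ^ p⟩⟩

omit [Fact p.Prime] [CharP F p] in
@[simp] theorem mul_a (x y : Suz p F) : (x * y).a = x.a + y.a := rfl
omit [Fact p.Prime] [CharP F p] in
@[simp] theorem mul_c (x y : Suz p F) : (x * y).c = x.c + y.c + x.a * y.a ^ p := rfl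
omit [Fact p.Prime] [CharP F p] in
@[simp] theorem one_a : (1 : Suz p F).a = 0 := rfl
omit [Fact p.Prime] [CharP F p] in
@[simp] theorem one_c : (1 : Suz p F).c = 0 := rfl
omit [Fact p.Prime] [CharP F p] in
@[simp] theorem inv_a (x : Suz p F) : (x⁻¹).a = -x.a := rfl
omit [Fact p.Prime] [CharP F p] in
@[simp] theorem inv_c (x : Suz p F) : (x⁻¹).c = -x.c + x.a * x.a ^ p := rfl

instance : Group (Suz p F) := Group.ofLeftAxioms
  (by
    intro x y z
    ext
    · simp [add_assoc]
    · simp only [mul_c, mul_a]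
      rw [add_pow_char]
      ring)
  (by
    intro x
    ext <;> simp)
  (by
    intro x
    ext
    · simp
    · simp only [mul_c, inv_a, inv_c, one_c]; ring)

/-- the underlying set -/
def equiv : Suz p F ≃ F × F where
  toFun x := (x.a, x.c)
  invFun x := ⟨x.1, x.2⟩
  left_inv _ := rfl
  right_inv _ := rfl

instance [Finite F] : Finite (Suz p F) := Finite.of_equiv _ equiv.symm

omit [Fact p.Prime] [CharP F p] in
theorem card : Nat.card (Suz p F) = Nat.card F * Nat.card F := by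
  rw [Nat.card_congr equiv, Nat.card_prod]

/-- the endomorphism given by a scalar -/
def tau (t : F) : Suz p F →* Suz p F where
  toFun x := ⟨t * x.a, t ^ (p + 1) * x.c⟩
  map_one' := by ext <;> simp
  map_mul' x y := by
    ext
    · simp only [mul_a]; ring
    · simp only [mul_a, mul_c, mul_pow]; ring

theorem tau_one (t : F) (ht : t ≠ 0) (x : Suz p F) (hx : tau t x = 1) : x = 1 := by
  have h1 : t * x.a = 0 := congrArg Suz.a hx
  have h2 : t ^ (p + 1) * x.c = 0 := congrArg Suz.c hx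
  exact Suz.ext ((mul_eq_zero.1 h1).resolve_left ht)
    ((mul_eq_zero.1 h2).resolve_left (pow_ne_zero _ ht))

theorem tau_eq (t s : F) (hts : t ^ (p + 1) ≠ s ^ (p + 1)) (x : Suz p F)
    (hx : tau t x = tau s x) : x = 1 := by
  have h1 : t * x.a = s * x.a := congrArg Suz.a hx
  have h2 : t ^ (p + 1) * x.c = s ^ (p + 1) * x.c := congrArg Suz.c hx
  have hts' : t ≠ s := fun h => hts (by rw [h])
  have h3 : (t - s) * x.a = 0 := by linear_combination h1
  have h4 : (t ^ (p + 1) - s ^ (p + 1)) * x.c = 0 := by linear_combination h2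
  exact Suz.ext ((mul_eq_zero.1 h3).resolve_left (sub_ne_zero.2 hts'))
    ((mul_eq_zero.1 h4).resolve_left (sub_ne_zero.2 hts))

variable [Finite F] {m : ℕ}

omit [CharP F p] in
theorem unit_sq (hF : Nat.card F = p ^ m) (hm : Odd m) (x : Fˣ) (hx : x ^ (p + 1) = 1) :
    x ^ 2 = 1 := by
  have hp : p.Prime := Fact.out
  have h1 : p + 1 ∣ p ^ m + 1 := by
    have h2 := hm.nat_add_dvd_pow_add_pow p 1
    rwa [one_pow] at h2
  have h2 : x ^ (p ^ m + 1) = 1 := by
    obtain ⟨k, hk⟩ := h1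
    rw [hk, pow_mul, hx, one_pow]
  have h3 : x ^ (p ^ m - 1) = 1 := by
    rw [← hF, ← Nat.card_units]
    exact pow_card_eq_one'
  have h4 : p ^ m + 1 = (p ^ m - 1) + 2 := by
    have := Nat.one_le_pow m p hp.pos
    omega
  rw [h4, pow_add, h3, one_mul] at h2
  exact h2

omit [CharP F p] in
/-- representatives of the values of `t ↦ t ^ (p + 1)` -/
theorem reps (hF : Nat.card F = p ^ m) (hm : Odd m) : ∃ (ι : Type) (_ : Finite ι) (L : ι → Fˣ),
    (∀ i j, i ≠ j → (L i) ^ (p + 1) ≠ (L j) ^ (p + 1)) ∧ p ^ m - 1 ≤ 2 * Nat.card ι ∧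
    (p = 2 → (2 : F) = 0 → p ^ m - 1 ≤ Nat.card ι) := by
  classical
  let f : Fˣ →* Fˣ := powMonoidHom (p + 1)
  have hr : ∀ y : f.range, ∃ x : Fˣ, x ^ (p + 1) = y.1 := fun y => y.2
  choose L hL using hr
  have hcard : Nat.card f.ker * Nat.card f.range = p ^ m - 1 := by
    have h1 := Subgroup.card_mul_index f.ker
    rw [Subgroup.index_ker] at h1
    rw [h1, Nat.card_units, hF]
  refine ⟨f.range, inferInstance, L, ?_, ?_, ?_⟩
  · intro i j hij h
    rw [hL, hL] at h
    exact hij (Subtype.ext h)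
  · rw [← hcard]
    refine Nat.mul_le_mul_right _ ?_
    have h1 : Nat.card f.ker ≤ Nat.card (rootsOfUnity 2 F) := by
      refine Nat.card_le_card_of_injective
        (fun x : f.ker => (⟨x.1, ?_⟩ : rootsOfUnity 2 F)) ?_
      · have h2 : x.1 ^ (p + 1) = 1 := x.2
        exact (mem_rootsOfUnity 2 x.1).2 (unit_sq hF hm x.1 h2)
      · intro x y hxy
        exact Subtype.ext (congrArg (fun z : rootsOfUnity 2 F => z.1) hxy)
    exact h1.trans (card_rootsOfUnity F 2)
  · intro _ h2
    rw [← hcard]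
    have h1 : Nat.card f.ker = 1 := by
      rw [Subgroup.card_eq_one, Subgroup.eq_bot_iff_forall]
      intro x hx
      have h3 : x ^ (p + 1) = 1 := hx
      have h4 := unit_sq hF hm x h3
      have h5 : ((x : F) - 1) * ((x : F) - 1) = 0 := by
        have h6 : (x : F) ^ 2 = 1 := by
          have := congrArg Units.val h4
          simpa using this
        linear_combination h6 + (1 - (x : F)) * h2
      have h6 := mul_self_eq_zero.1 h5
      exact Units.ext (sub_eq_zero.1 h6)
    rw [h1, one_mul]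

theorem noncomm (hF : Nat.card F = p ^ m) (hm : 2 ≤ m) :
    ∃ x y : Suz p F, x * y ≠ y * x := by
  have hp : p.Prime := Fact.out
  obtain ⟨g, hg⟩ := IsCyclic.exists_ofOrder_eq_natCard (α := Fˣ)
  refine ⟨⟨1, 0⟩, ⟨(g : F), 0⟩, fun h => ?_⟩
  have h1 := congrArg Suz.c h
  simp only [mul_c, one_pow, mul_one, one_mul, zero_add, add_zero] at h1
  have h2 : g ^ p = g := Units.ext (by simpa using h1)
  have h3 : g ^ (p - 1) = 1 := by
    have h4 : g ^ (p - 1) * g = 1 * g := by
      rw [← pow_succ, Nat.sub_add_cancel hp.one_le, h2, one_mul]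
    exact mul_right_cancel h4
  have h4 := orderOf_dvd_of_pow_eq_one h3
  rw [hg, Nat.card_units, hF] at h4
  have h5 := Nat.le_of_dvd (by have := hp.two_le; omega) h4
  have h6 : p ^ 2 ≤ p ^ m := Nat.pow_le_pow_right hp.pos hm
  have h7 : 2 ≤ p := hp.two_le
  have h8 : p < p ^ 2 := by nlinarith
  omega

/-- Lower bound, all primes. -/
theorem lower (hF : Nat.card F = p ^ m) (hm : Odd m) :
    ∃ U : Fin ((p ^ m + 3) / 2) → Subgroup (Suz p F × Suz p F),
      IsPCP (Suz p F × Suz p F) ((p ^ m + 3) / 2) U := by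
  obtain ⟨ι, hι, L, hL, h1, -⟩ := reps hF hm
  refine gfam_pcp (fun i => tau (p := p) ((L i : Fˣ) : F)) ?_ ?_ _ ?_
  · intro i x hx
    exact tau_one _ (L i).ne_zero x hx
  · intro i j hij x hx
    refine tau_eq _ _ ?_ x hx
    intro h
    apply hL i j hij
    exact Units.ext (by simpa using h)
  · have hp : p.Prime := Fact.out
    have := Nat.one_le_pow m p hp.pos
    omega

end Suz

/-- Lower bound for `p = 2`. -/
theorem Suz.lower2 {F : Type} [Field F] [CharP F 2] [Finite F] {m : ℕ}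
    (hF : Nat.card F = 2 ^ m) (hm : Odd m) :
    ∃ U : Fin (2 ^ m + 1) → Subgroup (Suz 2 F × Suz 2 F),
      IsPCP (Suz 2 F × Suz 2 F) (2 ^ m + 1) U := by
  obtain ⟨ι, hι, L, hL, -, h1⟩ := Suz.reps (p := 2) hF hm
  have h2 : (2 : F) = 0 := by
    have := CharP.cast_eq_zero F 2
    exact_mod_cast this
  have h3 := h1 rfl h2
  refine gfam_pcp (fun i => Suz.tau (p := 2) ((L i : Fˣ) : F)) ?_ ?_ _ ?_
  · intro i x hx
    exact Suz.tau_one _ (L i).ne_zero x hx
  · intro i j hij x hx
    refine Suz.tau_eq _ _ ?_ x hx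
    intro h
    apply hL i j hij
    exact Units.ext (by simpa using h)
  · have := Nat.one_le_pow m 2 (by norm_num)
    omega

end Pool.Agent.Helper958.PCP
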