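import Mathlib
import Pool.Agent.Helper958.PCP.Suz

/-!
# Upper bound for Suzuki 2-groups
-/

set_option autoImplicit false

namespace Pool.Agent.Helper958.PCP

namespace Suz

variable {F : Type} [Field F] [CharP F 2] [Finite F] {m : ℕ}

theorem two_zero : (2 : F) = 0 := by
  have := CharP.cast_eq_zero F 2
  exact_mod_cast this

theorem cube_inj (hF : Nat.card F = 2 ^ m) (hm : Odd m) (x y : F)
    (h : x * x ^ 2 = y * y ^ 2) : x = y := by
  by_cases hx : x = 0
  · rw [hx] at h ⊢
    have h1 : y ^ 3 = 0 := by linear_combination -h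
    exact (pow_eq_zero_iff (by norm_num)).1 h1 |>.symm
  by_cases hy : y = 0
  · rw [hy] at h
    have h1 : x ^ 3 = 0 := by linear_combination h
    exact absurd ((pow_eq_zero_iff (by norm_num)).1 h1) hx
  let u : Fˣ := Units.mk0 (x / y) (div_ne_zero hx hy)
  have hu : u ^ (2 + 1) = 1 := by
    apply Units.ext
    show (x / y) ^ (2 + 1) = 1
    rw [div_pow, div_eq_one_iff_eq (pow_ne_zero _ hy)]
    linear_combination h
  have h1 := unit_sq (p := 2) hF hm u hu
  have h2 : (x / y) ^ 2 = 1 := congrArg Units.val h1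
  have h3 : (x / y - 1) * (x / y - 1) = 0 := by
    linear_combination h2 + (1 - x / y) * two_zero (F := F)
  have h4 := sub_eq_zero.1 (mul_self_eq_zero.1 h3)
  rwa [div_eq_one_iff_eq hy] at h4

/-- the projection modulo the centre -/
def pj : Suz 2 F × Suz 2 F →* Multiplicative (F × F) where
  toFun g := Multiplicative.ofAdd (g.1.a, g.2.a)
  map_one' := rfl
  map_mul' _ _ := rfl

theorem meets (hF : Nat.card F = 2 ^ m) (hm : Odd m) (U : Subgroup (Suz 2 F × Suz 2 F))
    (hU : Nat.card U = Nat.card (Suz 2 F)) :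
    Nat.card F ≤ Nat.card (U ⊓ (pj (F := F)).ker : Subgroup (Suz 2 F × Suz 2 F)) := by
  classical
  have h1 := card_mul_relIndex' (U ⊓ (pj (F := F)).ker) U inf_le_left
  rw [Subgroup.inf_relIndex_left, Subgroup.relIndex_ker, hU, Suz.card] at h1
  have hc : ∀ y : U.map (pj (F := F)), ∃ u ∈ U, pj u = y.1 := fun y => y.2
  choose v hv hvy using hc
  have h2 : Nat.card (U.map (pj (F := F))) ≤
      Nat.card (U ⊓ (pj (F := F)).ker : Subgroup (Suz 2 F × Suz 2 F)) := by
    refine Nat.card_le_card_of_injective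
      (fun y => (⟨v y * v y, ?_, ?_⟩ : (U ⊓ (pj (F := F)).ker :
        Subgroup (Suz 2 F × Suz 2 F)))) ?_
    · exact U.mul_mem (hv y) (hv y)
    · show pj (v y * v y) = 1
      rw [map_mul]
      have h3 : ∀ z : Multiplicative (F × F), z * z = 1 := by
        intro z
        refine Multiplicative.toAdd.injective (Prod.ext ?_ ?_)
        · exact CharTwo.add_self_eq_zero _
        · exact CharTwo.add_self_eq_zero _
      exact h3 _
    · intro y z hyz
      have h3 : v y * v y = v z * v z := congrArg Subtype.val hyz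
      have h4 : (v y * v y).1.c = (v z * v z).1.c := by rw [h3]
      have h5 : (v y * v y).2.c = (v z * v z).2.c := by rw [h3]
      have h6 : (v y).1.a * (v y).1.a ^ 2 = (v z).1.a * (v z).1.a ^ 2 := by
        simp only [Prod.fst_mul, mul_c, CharTwo.add_self_eq_zero, zero_add] at h4
        exact h4
      have h7 : (v y).2.a * (v y).2.a ^ 2 = (v z).2.a * (v z).2.a ^ 2 := by
        simp only [Prod.snd_mul, mul_c, CharTwo.add_self_eq_zero, zero_add] at h5
        exact h5
      have h8 := cube_inj hF hm _ _ h6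
      have h9 := cube_inj hF hm _ _ h7
      apply Subtype.ext
      rw [← hvy y, ← hvy z]
      show Multiplicative.ofAdd ((v y).1.a, (v y).2.a) = Multiplicative.ofAdd ((v z).1.a, (v z).2.a)
      rw [h8, h9]
  have h3 : Nat.card F * Nat.card F ≤
      Nat.card (U ⊓ (pj (F := F)).ker : Subgroup (Suz 2 F × Suz 2 F)) *
      Nat.card (U ⊓ (pj (F := F)).ker : Subgroup (Suz 2 F × Suz 2 F)) := by
    rw [← h1]
    exact Nat.mul_le_mul_left _ h2
  exact Nat.mul_self_le_mul_self_iff.1 h3

/-- Upper bound for the Suzuki 2-groups. -/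
theorem upper2 (hF : Nat.card F = 2 ^ m) (hm : Odd m) (r : ℕ)
    (U : Fin r → Subgroup (Suz 2 F × Suz 2 F)) (h : IsPCP (Suz 2 F × Suz 2 F) r U) :
    r ≤ 2 ^ m + 1 := by
  have h1 := primal_count (Nat.card F) (⊥ : Subgroup (Suz 2 F × Suz 2 F)) (pj (F := F)).ker bot_le
    Finset.univ (fun i => U i ⊓ (pj (F := F)).ker) (fun i _ => inf_le_right) ?_ ?_
  · rw [Subgroup.card_bot, mul_one, Finset.card_univ, Fintype.card_fin] at h1
    have h2 : Nat.card (pj (F := F)).ker = Nat.card F * Nat.card F := by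
      rw [← Nat.card_prod]
      refine Nat.card_congr ⟨fun g => (g.1.1.c, g.1.2.c), fun c => ⟨(⟨0, c.1⟩, ⟨0, c.2⟩), rfl⟩,
        ?_, fun c => rfl⟩
      rintro ⟨⟨⟨a, c⟩, ⟨b, d⟩⟩, hg⟩
      have h3 : (a, b) = ((0, 0) : F × F) := hg
      have h4 : a = 0 := congrArg Prod.fst h3
      have h5 : b = 0 := congrArg Prod.snd h3
      subst h4 h5
      rfl
    rw [h2, hF] at h1
    have hm1 : 1 ≤ m := hm.pos
    have h3 : 2 ≤ 2 ^ m := by
      calc 2 = 2 ^ 1 := rfl
        _ ≤ 2 ^ m := Nat.pow_le_pow_right (by norm_num) hm1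
    obtain ⟨t, ht⟩ : ∃ t, 2 ^ m = t + 2 := ⟨2 ^ m - 2, by omega⟩
    rw [ht] at h1 ⊢
    have e1 : t + 2 - 1 = t + 1 := by omega
    rw [e1] at h1
    by_contra hcon
    push Not at hcon
    have h4 : (t + 2 + 1 + 1) * (t + 1) ≤ r * (t + 1) := Nat.mul_le_mul_right _ hcon
    nlinarith
  · intro i _
    rw [Subgroup.card_bot, mul_one]
    exact meets hF hm _ (pcp_card h i)
  · intro i _ j _ hij
    rw [← h.2 i j hij]
    exact inf_le_inf inf_le_left inf_le_left

end Suz

end Pool.Agent.Helper958.PCP
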